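import Pool.Agent.U506.LM.Max
import Pool.Agent.N303.LS.Fin7
import Pool.Agent.N297.LS.Lpk
import Pool.Agent.N441.LS.LPA
import Pool.Agent.N558.LS.MUL
import Pool.Agent.N413.LS.BES
import Pool.Agent.N287.LS.YOU

set_option autoImplicit false

/-!
# The maximal function in time of the wave with random signs: tools for the assembly
-/

namespace Pool.Agent.U506.LM

open MeasureTheory Pool.Agent.N303.LS
open scoped ENNReal FourierTransform RealInnerProductSpace SchwartzMap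

variable {d : ℕ}

/-- summation with geometric weights -/
theorem geoH {p : ℝ} (hp : 2 ≤ p) {θ : ℝ} (h0 : 0 < θ) (h1 : θ < 1) (L : ℕ) (b : ℕ → ℝ≥0∞) :
    (∑ c ∈ Finset.range L, b c) ^ p ≤ ENNReal.ofReal ((1 - θ)⁻¹ ^ (p - 1)) *
      ∑ c ∈ Finset.range L, ENNReal.ofReal ((θ ^ (1 - p)) ^ c) * b c ^ p := by
  have hp0 : 0 < p := by linarith
  have hp1 : 0 < p - 1 := by linarith
  set α : ℝ := θ ^ ((p - 1) / p) with hα
  have hα0 : 0 < α := by positivity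
  have hc : (p / (p - 1)).HolderConjugate p := by
    have := Real.HolderConjugate.conjExponent (p := p) (by linarith)
    unfold Real.conjExponent at this
    exact this.symm
  have h := ENNReal.inner_le_Lp_mul_Lq (Finset.range L) (fun c => ENNReal.ofReal (α ^ c))
    (fun c => ENNReal.ofReal ((α ^ c)⁻¹) * b c) hc
  have e1 : ∀ c : ℕ, ENNReal.ofReal (α ^ c) * (ENNReal.ofReal ((α ^ c)⁻¹) * b c) = b c := by
    intro c
    rw [← mul_assoc, ← ENNReal.ofReal_mul (by positivity), mul_inv_cancel₀ (by positivity),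
      ENNReal.ofReal_one, one_mul]
  have e2 : ∀ c : ℕ, ENNReal.ofReal (α ^ c) ^ (p / (p - 1)) = ENNReal.ofReal (θ ^ c) := by
    intro c
    rw [ENNReal.ofReal_rpow_of_nonneg (by positivity) (by positivity)]
    congr 1
    rw [hα, ← Real.rpow_natCast, ← Real.rpow_natCast, ← Real.rpow_mul h0.le, ← Real.rpow_mul h0.le]
    congr 1
    field_simp
  have e3 : ∀ c : ℕ, (ENNReal.ofReal ((α ^ c)⁻¹) * b c) ^ p =
      ENNReal.ofReal ((θ ^ (1 - p)) ^ c) * b c ^ p := by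
    intro c
    rw [ENNReal.mul_rpow_of_nonneg _ _ hp0.le, ENNReal.ofReal_rpow_of_nonneg (by positivity) hp0.le]
    congr 2
    rw [hα, ← Real.rpow_natCast, ← Real.rpow_natCast, ← Real.rpow_mul h0.le, ← Real.rpow_mul h0.le,
      ← Real.rpow_neg h0.le, ← Real.rpow_mul h0.le]
    congr 1
    field_simp
    ring
  simp only [e1, e2, e3] at h
  have e4 : 1 / (p / (p - 1)) = (p - 1) / p := by field_simp
  rw [e4] at h
  have h2 := ENNReal.rpow_le_rpow h hp0.le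
  rw [ENNReal.mul_rpow_of_nonneg _ _ hp0.le, ← ENNReal.rpow_mul, ← ENNReal.rpow_mul,
    one_div_mul_cancel hp0.ne', ENNReal.rpow_one, div_mul_cancel₀ _ hp0.ne'] at h2
  refine h2.trans (mul_le_mul_left ?_ _)
  rw [← ENNReal.ofReal_sum_of_nonneg fun c _ => by positivity,
    ENNReal.ofReal_rpow_of_nonneg (Finset.sum_nonneg fun c _ => by positivity) hp1.le]
  refine ENNReal.ofReal_le_ofReal (Real.rpow_le_rpow (Finset.sum_nonneg fun c _ => by positivity)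
    ?_ hp1.le)
  calc ∑ c ∈ Finset.range L, θ ^ c ≤ ∑' c, θ ^ c :=
        (summable_geometric_of_lt_one h0.le h1).sum_le_tsum _ fun c _ => by positivity
    _ = (1 - θ)⁻¹ := tsum_geometric_of_lt_one h0.le h1

/-- the points of `A` in a dyadic shell -/
def sh (A : Finset (Fin d → ℤ)) (c : ℕ) : Finset (Fin d → ℤ) :=
  A.filter fun m => Nat.size (nm m) = c

theorem mem_sh {A : Finset (Fin d → ℤ)} {c : ℕ} {m : Fin d → ℤ} :
    m ∈ sh A c ↔ m ∈ A ∧ Nat.size (nm m) = c := by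
  unfold sh
  rw [Finset.mem_filter]

theorem psi_sh (K : 𝓢(E d, ℂ)) (A : Finset (Fin d → ℤ)) (L : ℕ)
    (hL : ∀ m ∈ A, Nat.size (nm m) < L) (ξ : E d) :
    psi K A ξ = ∑ c ∈ Finset.range L, psi K (sh A c) ξ := by
  unfold psi sh
  have h1 : ∀ c ∈ Finset.range L, ∑ m ∈ A.filter (fun m => Nat.size (nm m) = c),
      𝓕 (K : E d → ℂ) (ξ - pt m) =
      ∑ m ∈ A, if Nat.size (nm m) = c then 𝓕 (K : E d → ℂ) (ξ - pt m) else 0 := fun c _ =>
    Finset.sum_filter _ _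
  rw [Finset.sum_congr rfl h1, Finset.sum_comm]
  refine Finset.sum_congr rfl fun m hm => ?_
  rw [Finset.sum_ite_eq, if_pos (Finset.mem_range.2 (hL m hm))]

/-- the points near the cubes of a shell are in the dyadic annulus -/
theorem shell' (m : Fin d → ℤ) (k ρ : ℕ) (h : Nat.size (nm m) = k + 1) (hρ : 4 * ρ ≤ 2 ^ k)
    (ξ : E d) (hξ : ∀ i, |ξ i - m i| ≤ ρ) :
    (∃ i, (2 : ℝ) ^ k * (3 / 4) ≤ |ξ i|) ∧ ∀ i, |ξ i| ≤ (2 : ℝ) ^ k * (9 / 4) := by
  have hρ' : 4 * (ρ : ℝ) ≤ 2 ^ k := by exact_mod_cast hρ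
  constructor
  · have h1 : 2 ^ k ≤ nm m := Nat.lt_size.1 (by omega)
    obtain ⟨i, hi⟩ : ∃ i, 2 ^ k ≤ (m i).natAbs := by
      by_contra hcon
      push Not at hcon
      have h2 : nm m < 2 ^ k := by
        unfold nm
        rw [Finset.sup_lt_iff (by positivity)]
        exact fun i _ => hcon i
      omega
    refine ⟨i, ?_⟩
    have h3 : (2 : ℝ) ^ k ≤ |(m i : ℝ)| := by
      have : ((2 ^ k : ℕ) : ℤ) ≤ |m i| := by
        rw [Int.abs_eq_natAbs]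
        exact_mod_cast hi
      exact_mod_cast this
    have h4 := hξ i
    have h5 : |(m i : ℝ)| ≤ |ξ i| + |ξ i - m i| := by
      have : (m i : ℝ) = ξ i - (ξ i - m i) := by ring
      calc |(m i : ℝ)| = |ξ i - (ξ i - m i)| := by rw [← this]
        _ ≤ _ := abs_sub _ _
    linarith
  · intro i
    have h1 := abs_lt_of_size m (k + 1) h i
    have h2 : |(m i : ℝ)| < 2 ^ (k + 1) := by exact_mod_cast h1
    have h4 := hξ i
    have h5 : |ξ i| ≤ |(m i : ℝ)| + |ξ i - m i| := by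
      have : ξ i = (m i : ℝ) + (ξ i - m i) := by ring
      calc |ξ i| = |(m i : ℝ) + (ξ i - m i)| := by rw [← this]
        _ ≤ _ := abs_add_le _ _
    rw [pow_succ] at h2
    linarith

/-- the cut-offs -/
noncomputable def ct (χ : ℕ → E d → ℂ) (c₀ c : ℕ) : E d → ℂ :=
  if c ≤ c₀ then fun _ => 1 else χ (c - 1)

theorem ct_psi (χ : ℕ → E d → ℂ)
    (χ1 : ∀ (k : ℕ) (ξ : E d), (∃ i, (2 : ℝ) ^ k * (3 / 4) ≤ |ξ i|) →
      (∀ i, |ξ i| ≤ (2 : ℝ) ^ k * (9 / 4)) → χ k ξ = 1) (K : 𝓢(E d, ℂ)) (ρ c₀ : ℕ)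
    (hK : ∀ ξ : E d, 𝓕 (K : E d → ℂ) ξ ≠ 0 → ∀ i, |ξ i| ≤ ρ) (hρ : 4 * ρ ≤ 2 ^ c₀)
    (A : Finset (Fin d → ℤ)) (c : ℕ) (ξ : E d) :
    psi K (sh A c) ξ * ct χ c₀ c ξ = psi K (sh A c) ξ := by
  unfold psi
  rw [Finset.sum_mul]
  refine Finset.sum_congr rfl fun m hm => ?_
  by_cases hz : 𝓕 (K : E d → ℂ) (ξ - pt m) = 0
  · rw [hz, zero_mul]
  · unfold ct
    by_cases hc : c ≤ c₀
    · rw [if_pos hc, mul_one]
    · rw [if_neg hc]
      have hm2 := (mem_sh.1 hm).2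
      have h1 : Nat.size (nm m) = (c - 1) + 1 := by omega
      have h2 : 4 * ρ ≤ 2 ^ (c - 1) := hρ.trans (Nat.pow_le_pow_right (by norm_num) (by omega))
      have h3 : ∀ i, |ξ i - m i| ≤ ρ := by
        intro i
        have := hK _ hz i
        simpa [pt] using this
      have h4 := shell' m (c - 1) ρ h1 h2 ξ h3
      rw [χ1 (c - 1) ξ h4.1 h4.2, mul_one]

theorem ct_rnd (χ : ℕ → E d → ℂ)
    (χ1 : ∀ (k : ℕ) (ξ : E d), (∃ i, (2 : ℝ) ^ k * (3 / 4) ≤ |ξ i|) →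
      (∀ i, |ξ i| ≤ (2 : ℝ) ^ k * (9 / 4)) → χ k ξ = 1) (K : 𝓢(E d, ℂ)) (ρ c₀ : ℕ)
    (hK : ∀ ξ : E d, 𝓕 (K : E d → ℂ) ξ ≠ 0 → ∀ i, |ξ i| ≤ ρ) (hρ : 4 * ρ ≤ 2 ^ c₀)
    {ι : Type} [Fintype ι] (A : ι → Finset (Fin d → ℤ)) (ε : ι → Bool) (c : ℕ) (ξ : E d) (z : ℂ) :
    rnd K (fun i => sh (A i) c) ε ξ * (ct χ c₀ c ξ * z) =
      rnd K (fun i => sh (A i) c) ε ξ * z := by
  unfold rnd
  rw [Finset.sum_mul, Finset.sum_mul]
  refine Finset.sum_congr rfl fun i _ => ?_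
  have h := ct_psi χ χ1 K ρ c₀ hK hρ (A i) c ξ
  by_cases hε : ε i = true
  · simp only [hε, if_true]
    rw [← mul_assoc, h]
  · simp only [hε, if_false, Bool.false_eq_true]
    rw [← mul_assoc, neg_mul, h]

theorem rnd_sh (K : 𝓢(E d, ℂ)) {ι : Type} [Fintype ι] (A : ι → Finset (Fin d → ℤ))
    (ε : ι → Bool) (L : ℕ) (hL : ∀ i, ∀ m ∈ A i, Nat.size (nm m) < L) (ξ : E d) :
    rnd K A ε ξ = ∑ c ∈ Finset.range L, rnd K (fun i => sh (A i) c) ε ξ := by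
  unfold rnd
  rw [Finset.sum_comm]
  refine Finset.sum_congr rfl fun i _ => ?_
  by_cases hε : ε i = true
  · simp only [hε, if_true]
    exact psi_sh K (A i) L (hL i) ξ
  · simp only [hε, if_false, Bool.false_eq_true]
    rw [psi_sh K (A i) L (hL i) ξ, Finset.sum_neg_distrib]

theorem rnd_int (K : 𝓢(E d, ℂ)) {ι : Type} [Fintype ι] (A : ι → Finset (Fin d → ℤ))
    (ε : ι → Bool) (F : E d → ℂ) (hF : Integrable F) : Integrable fun ξ => rnd K A ε ξ * F ξ := by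
  unfold rnd
  simp only [Finset.sum_mul]
  refine integrable_finset_sum _ fun i _ => ?_
  have h1 := psi_int K (A i) F hF
  by_cases hε : ε i = true
  · simp only [hε, if_true]
    exact h1
  · simp only [hε, if_false, Bool.false_eq_true]
    refine h1.neg.congr (Filter.Eventually.of_forall fun ξ => ?_)
    show -(_ * _) = _
    ring

/-- the wave is the sum over the shells -/
theorem wave_sh (K : 𝓢(E d, ℂ)) {ι : Type} [Fintype ι] (A : ι → Finset (Fin d → ℤ))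
    (ε : ι → Bool) (L : ℕ) (hL : ∀ i, ∀ m ∈ A i, Nat.size (nm m) < L) (u₀ u₁ : 𝓢(E d, ℂ))
    (t : ℝ) (h0 : 0 ≤ t) (h2 : t ≤ 2) (x : E d) :
    wave (fun ξ => rnd K A ε ξ * 𝓕 (u₀ : E d → ℂ) ξ) (fun ξ => rnd K A ε ξ * 𝓕 (u₁ : E d → ℂ) ξ) t x =
      ∑ c ∈ Finset.range L, wave (fun ξ => rnd K (fun i => sh (A i) c) ε ξ * 𝓕 (u₀ : E d → ℂ) ξ)
        (fun ξ => rnd K (fun i => sh (A i) c) ε ξ * 𝓕 (u₁ : E d → ℂ) ξ) t x := by
  unfold wave
  rw [← inv_sum]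
  · congr 1
    funext ξ
    beta_reduce
    rw [rnd_sh K A ε L hL ξ, Finset.sum_add_distrib, ← Finset.mul_sum, ← Finset.mul_sum,
      ← Finset.sum_mul, ← Finset.sum_mul]
  · intro c _
    exact wint t h0 h2 _ _ (rnd_int K _ ε _ (four_int u₀)) (rnd_int K _ ε _ (four_int u₁))

end Pool.Agent.U506.LM
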