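import Pool.Agent.N764.LS.PD
import Pool.Agent.N562.LS.BW
import Pool.Agent.N170.LS.LLG
import Pool.Agent.N303.LS.Fin7
import Pool.Agent.U506.LS.Car

set_option autoImplicit false

/-!
# The pointwise bound of the pieces by the local energy, for general Schwartz kernels and weights
-/

namespace Pool.Agent.U506.LM

open MeasureTheory Pool.Agent.N303.LS Pool.Agent.N492.LS Pool.Agent.N170.LS
open scoped ENNReal FourierTransform RealInnerProductSpace SchwartzMap ComplexConjugate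

variable {d : ℕ}

/-- Bessel's inequality for the weighted transforms -/
theorem bessel_w {M B : ℕ} {C : ℝ} (hB : d < 2 * B)
    (hbw : ∀ h : E d → ℂ, Continuous h →
      (∃ b : ℝ, ∀ x, ‖h x‖ ≤ b) → ∀ (z ξ : E d) (S : Finset (Fin d → ℤ)),
      ∑ m ∈ S, ‖∫ u : E d, h u * (((1 + ‖u - z‖ ^ 2) ^ B : ℝ) : ℂ)⁻¹ *
        Complex.exp (((-(2 * Real.pi * ⟪u, ξ + pt m⟫) : ℝ) : ℂ) * Complex.I)‖ₑ ^ (2 : ℝ) ≤
        ENNReal.ofReal C * nrg M h z)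
    (F : E d → ℂ) (hF : Integrable F) (z ξ : E d) (S : Finset (Fin d → ℤ)) :
    ∑ m ∈ S, ‖bw (fun u => inv F u * wB B z u) (ξ + pt m)‖ₑ ^ (2 : ℝ) ≤
      ENNReal.ofReal C * nrg M (inv F) z := by
  have hcF := cont_inv hF
  have hbF : ∀ x, ‖inv F x‖ ≤ ∫ ξ, ‖F ξ‖ := by
    intro x
    rw [inv_eq]
    refine (norm_integral_le_integral_norm _).trans (le_of_eq ?_)
    refine integral_congr_ae (Filter.Eventually.of_forall fun y => ?_)
    show ‖e ⟪x, y⟫ * F y‖ = ‖F y‖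
    rw [norm_mul, norm_e, one_mul]
  refine le_trans (le_of_eq ?_) (hbw (inv F) hcF ⟨_, hbF⟩ z ξ S)
  refine Finset.sum_congr rfl fun m _ => ?_
  congr 2
  unfold bw
  refine integral_congr_ae (Filter.Eventually.of_forall fun u => ?_)
  show inv F u * wB B z u * conj (e ⟪u, ξ + pt m⟫) = _
  rw [conj_e]
  unfold wB e
  rw [show 2 * Real.pi * -⟪u, ξ + pt m⟫ = -(2 * Real.pi * ⟪u, ξ + pt m⟫) by ring]

/-- the operators with one kernel -/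
theorem op_car (k : 𝓢(E d, ℂ)) {H : E d → ℂ} (hH : Integrable H) (x : E d) {ι : Type} [Fintype ι]
    (A : ι → Finset (Fin d → ℤ)) (V : ℕ) (hA : ∀ i j, i ≠ j → Disjoint (A i) (A j))
    (hV : ∀ i, (A i).card ≤ V) (a : (Fin d → ℤ) → ℂ) {r : ℝ} (hr : 0 ≤ r)
    (ha : ∀ i, ∀ m ∈ A i, ‖a m‖ ≤ r) {N : ℝ≥0∞}
    (hN : ∀ (ξ : E d) (S : Finset (Fin d → ℤ)), ∑ m ∈ S, ‖bw H (ξ + pt m)‖ₑ ^ (2 : ℝ) ≤ N) :
    ∑ i, ‖op k (A i) a H x‖ₑ ^ (2 : ℝ) ≤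
      (∫⁻ ξ : E d, ‖𝓕 (k : E d → ℂ) ξ‖ₑ) ^ (2 : ℝ) * (ENNReal.ofReal (V * r ^ 2) * N) := by
  classical
  set κ := ∫⁻ ξ : E d, ‖𝓕 (k : E d → ℂ) ξ‖ₑ with hκ
  have h1 : ∀ i, ‖op k (A i) a H x‖ₑ ^ (2 : ℝ) ≤ κ * ∫⁻ ξ : E d, ‖𝓕 (k : E d → ℂ) ξ‖ₑ *
      (ENNReal.ofReal (V * r ^ 2) * ∑ m ∈ A i, ‖bw H (ξ + pt m)‖ₑ ^ (2 : ℝ)) := by
    intro i
    have h := pww k hH x (A i) a (p := 2) (by norm_num)
    have e1 : (2 : ℝ) - 1 = 1 := by norm_num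
    rw [e1, ENNReal.rpow_one] at h
    refine h.trans (mul_le_mul_right (lintegral_mono fun ξ => mul_le_mul_right ?_ _) _)
    refine (Pool.Agent.U506.LS.tp_cs (A i) _ x (hV i)).trans ?_
    have e2 : ∑ m ∈ A i, ‖bw H (ξ + pt m)‖ₑ ^ (2 : ℝ) =
        ENNReal.ofReal (∑ m ∈ A i, ‖bw H (ξ + pt m)‖ ^ 2) := by
      rw [ENNReal.ofReal_sum_of_nonneg fun m _ => by positivity]
      exact Finset.sum_congr rfl fun m _ => en2 _
    rw [e2, ← ENNReal.ofReal_mul (by positivity)]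
    refine ENNReal.ofReal_le_ofReal ?_
    rw [mul_assoc]
    refine mul_le_mul_of_nonneg_left ?_ (Nat.cast_nonneg V)
    rw [Finset.mul_sum]
    refine Finset.sum_le_sum fun m hm => ?_
    rw [norm_mul, mul_pow]
    exact mul_le_mul_of_nonneg_right (pow_le_pow_left₀ (norm_nonneg _) (ha i m hm) 2)
      (by positivity)
  refine (Finset.sum_le_sum fun i _ => h1 i).trans ?_
  rw [← Finset.mul_sum]
  have h2 : ∑ i, ∫⁻ ξ : E d, ‖𝓕 (k : E d → ℂ) ξ‖ₑ *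
      (ENNReal.ofReal (V * r ^ 2) * ∑ m ∈ A i, ‖bw H (ξ + pt m)‖ₑ ^ (2 : ℝ)) ≤
      κ * (ENNReal.ofReal (V * r ^ 2) * N) := by
    refine (sum_lint_le _ _ _).trans ?_
    rw [hκ, ← lintegral_mul_const _ (fK_meas k)]
    refine lintegral_mono fun ξ => ?_
    rw [← Finset.mul_sum, ← Finset.mul_sum]
    refine mul_le_mul_right (mul_le_mul_right ?_ _) _
    have h5 : ∑ i, ∑ m ∈ A i, ‖bw H (ξ + pt m)‖ₑ ^ (2 : ℝ) =
        ∑ m ∈ Finset.univ.biUnion A, ‖bw H (ξ + pt m)‖ₑ ^ (2 : ℝ) := by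
      rw [Finset.sum_biUnion]
      intro i _ j _ hij
      exact hA i j hij
    rw [h5]
    exact hN ξ _
  refine (mul_le_mul_right h2 _).trans (le_of_eq ?_)
  rw [← mul_assoc]
  congr 1
  rw [show (2 : ℝ) = ((2 : ℕ) : ℝ) by norm_num, ENNReal.rpow_natCast, sq]

/-- (CARG) the pointwise bound for a general Schwartz kernel and weights -/
theorem carg (d M : ℕ) (K : 𝓢(E d, ℂ)) : ∃ C : ℝ, 0 < C ∧
    ∀ (ι : Type) [Fintype ι] (A : ι → Finset (Fin d → ℤ)) (V : ℕ) (a : (Fin d → ℤ) → ℂ) (r : ℝ),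
    (∀ i j, i ≠ j → Disjoint (A i) (A j)) → (∀ i, (A i).card ≤ V) → 0 ≤ r →
    (∀ i, ∀ m ∈ A i, ‖a m‖ ≤ r) →
    ∀ F : E d → ℂ, Integrable F → ∀ x : E d,
      ∑ i, ‖inv (fun ξ => psia K (A i) a ξ * F ξ) x‖ₑ ^ (2 : ℝ) ≤
        ENNReal.ofReal (C * V * r ^ 2) * nrg M (inv F) x := by
  obtain ⟨B, C, hC, hB, hbw⟩ := Pool.Agent.N562.LS.t_bw d M
  obtain ⟨n, P, k, hPc, hP⟩ := Pool.Agent.N764.LS.PD.t_pd d B K
  set κ : Fin n → ℝ≥0∞ := fun i => ∫⁻ ξ : E d, ‖𝓕 (k i : E d → ℂ) ξ‖ₑ with hκ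
  have hκt : ∀ i, κ i ≠ ⊤ := fun i => fK_top (k i)
  set C' : ℝ≥0∞ := (n : ℝ≥0∞) * ∑ i : Fin n, ‖P i 0‖ₑ ^ (2 : ℝ) * κ i ^ (2 : ℝ) with hC'
  have hC't : C' ≠ ⊤ := by
    rw [hC']
    refine ENNReal.mul_ne_top (by simp) (ENNReal.sum_ne_top.2 fun i _ => ?_)
    exact ENNReal.mul_ne_top (ENNReal.rpow_ne_top_of_nonneg (by norm_num) enorm_ne_top)
      (ENNReal.rpow_ne_top_of_nonneg (by norm_num) (hκt i))
  refine ⟨(C'.toReal + 1) * C, by positivity, ?_⟩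
  intro ι _ A V a r hA hV hr ha F hF x
  have hbF : ∀ x, ‖inv F x‖ ≤ ∫ ξ, ‖F ξ‖ := by
    intro x
    rw [inv_eq]
    refine (norm_integral_le_integral_norm _).trans (le_of_eq ?_)
    refine integral_congr_ae (Filter.Eventually.of_forall fun y => ?_)
    show ‖e ⟪x, y⟫ * F y‖ = ‖F y‖
    rw [norm_mul, norm_e, one_mul]
  have hH : Integrable fun u => inv F u * wB B x u :=
    int_bdd (c := ∫ ξ, ‖F ξ‖) (wB_int hB x) (cont_inv hF).aestronglyMeasurable hbF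
  have hN := fun (ξ : E d) (S : Finset (Fin d → ℤ)) => bessel_w hB hbw F hF x ξ S
  have h4 : ∀ i, ‖inv (fun ξ => psia K (A i) a ξ * F ξ) x‖ₑ ^ (2 : ℝ) ≤
      (n : ℝ≥0∞) * ∑ l : Fin n, ‖P l 0‖ₑ ^ (2 : ℝ) *
        ‖op (k l) (A i) a (fun u => inv F u * wB B x u) x‖ₑ ^ (2 : ℝ) := by
    intro i
    rw [formP K hF x x (A i) a P k hP hH, sub_self]
    have h := ENNReal.rpow_sum_le_const_mul_sum_rpow (s := (Finset.univ : Finset (Fin n)))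
      (f := fun l => ‖P l 0 * op (k l) (A i) a (fun u => inv F u * wB B x u) x‖ₑ) (p := 2)
      (by norm_num)
    have e1 : (2 : ℝ) - 1 = 1 := by norm_num
    rw [e1, ENNReal.rpow_one, Finset.card_univ, Fintype.card_fin] at h
    refine (ENNReal.rpow_le_rpow (enorm_sum_le _ _) (by norm_num)).trans (h.trans (le_of_eq ?_))
    congr 1
    refine Finset.sum_congr rfl fun l _ => ?_
    rw [enorm_mul, ENNReal.mul_rpow_of_nonneg _ _ (by norm_num)]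
  refine (Finset.sum_le_sum fun i _ => h4 i).trans ?_
  rw [← Finset.mul_sum, Finset.sum_comm]
  have h5 : ∀ l : Fin n, ∑ i, ‖P l 0‖ₑ ^ (2 : ℝ) *
        ‖op (k l) (A i) a (fun u => inv F u * wB B x u) x‖ₑ ^ (2 : ℝ) ≤
      ‖P l 0‖ₑ ^ (2 : ℝ) * κ l ^ (2 : ℝ) *
        (ENNReal.ofReal (V * r ^ 2) * (ENNReal.ofReal C * nrg M (inv F) x)) := by
    intro l
    rw [← Finset.mul_sum, mul_assoc]
    exact mul_le_mul_right (op_car (k l) hH x A V hA hV a hr ha hN) _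
  refine (mul_le_mul_right (Finset.sum_le_sum fun l _ => h5 l) _).trans ?_
  rw [← Finset.sum_mul, ← mul_assoc, ← hC']
  calc C' * (ENNReal.ofReal (V * r ^ 2) * (ENNReal.ofReal C * nrg M (inv F) x)) =
      (C' * ENNReal.ofReal (V * r ^ 2) * ENNReal.ofReal C) * nrg M (inv F) x := by ring
    _ ≤ _ := by
      gcongr
      rw [← ENNReal.ofReal_toReal hC't, ← ENNReal.ofReal_mul (by positivity),
        ← ENNReal.ofReal_mul (by positivity)]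
      rw [ENNReal.toReal_ofReal ENNReal.toReal_nonneg]
      refine ENNReal.ofReal_le_ofReal ?_
      have hV0 : (0 : ℝ) ≤ V * r ^ 2 := by positivity
      nlinarith

end Pool.Agent.U506.LM
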