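import Pool.Agent.U506.LM.Carg
import Pool.Agent.N362.LS.ENA
import Pool.Agent.N914.LS.ENB
import Pool.Agent.N655.LS.EN

set_option autoImplicit false

/-!
# The derivatives in time of the pieces of the wave
-/

namespace Pool.Agent.U506.LM

open MeasureTheory Pool.Agent.N303.LS Pool.Agent.N362.LS
open scoped ENNReal FourierTransform RealInnerProductSpace SchwartzMap

variable {d : ℕ}

/-- the Fourier transform of a derivative -/
theorem four_dj (K : 𝓢(E d, ℂ)) (j : Fin d) (ξ : E d) :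
    𝓕 (dj j K : E d → ℂ) ξ = ((2 * Real.pi * ξ j : ℝ) : ℂ) * Complex.I * 𝓕 (K : E d → ℂ) ξ := by
  have e3 : 𝓕 (dj j K : E d → ℂ) ξ = (𝓕 (dj j K) : 𝓢(E d, ℂ)) ξ := by rw [SchwartzMap.fourier_coe]
  rw [e3]
  unfold dj
  simp only [SchwartzMap.fourier_lineDerivOp_eq]
  have ht : (fun x : E d => inner ℝ x (EuclideanSpace.single j (1 : ℝ))).HasTemperateGrowth :=
    ((innerSL ℝ).flip (EuclideanSpace.single j (1 : ℝ))).hasTemperateGrowth
  simp only [smul_apply, SchwartzMap.smulLeftCLM_apply_apply ht]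
  rw [SchwartzMap.fourier_coe]
  have h3 : inner ℝ ξ (EuclideanSpace.single j (1 : ℝ)) = ξ j := by
    simp [EuclideanSpace.inner_single_right]
  rw [h3, smul_eq_mul, Complex.real_smul]
  push_cast
  ring

theorem psia_tg (K : 𝓢(E d, ℂ)) (S : Finset (Fin d → ℤ)) (a : (Fin d → ℤ) → ℂ) :
    (psia K S a).HasTemperateGrowth := by
  have h1 : ∀ m : Fin d → ℤ, (fun ξ : E d => a m * 𝓕 (K : E d → ℂ) (ξ - pt m)).HasTemperateGrowth := by
    intro m
    have h2 : (fun ξ : E d => ξ - pt m).HasTemperateGrowth :=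
      (ContinuousLinearMap.id ℝ (E d)).hasTemperateGrowth.sub (Function.HasTemperateGrowth.const _)
    have h3 : (𝓕 (K : E d → ℂ)).HasTemperateGrowth := by
      have h := (𝓕 K : 𝓢(E d, ℂ)).hasTemperateGrowth
      rwa [SchwartzMap.fourier_coe] at h
    exact (Function.HasTemperateGrowth.const _).mul (h3.comp h2)
  unfold psia
  exact Function.HasTemperateGrowth.sum fun m _ => h1 m

/-- the weights `2πi m_j` -/
noncomputable def wt (j : Fin d) (m : Fin d → ℤ) : ℂ := ((2 * Real.pi * (m j : ℝ) : ℝ) : ℂ) * Complex.I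

theorem psia_mul (K : 𝓢(E d, ℂ)) (S : Finset (Fin d → ℤ)) (j : Fin d) (ξ : E d) :
    ((2 * Real.pi * ξ j : ℝ) : ℂ) * Complex.I * psia K S (fun _ => 1) ξ =
      psia (dj j K) S (fun _ => 1) ξ + psia K S (wt j) ξ := by
  unfold psia
  rw [Finset.mul_sum, ← Finset.sum_add_distrib]
  refine Finset.sum_congr rfl fun m _ => ?_
  rw [four_dj]
  have h1 : (ξ - pt m) j = ξ j - m j := by simp [pt]
  rw [h1]
  unfold wt
  push_cast
  ring

/-- the pieces -/
noncomputable def pa (K : 𝓢(E d, ℂ)) (S : Finset (Fin d → ℤ)) (a : (Fin d → ℤ) → ℂ)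
    (k : Fin d ⊕ Bool) (g : 𝓢(E d, ℂ)) (t : ℝ) (x : E d) : ℂ :=
  inv (fun ξ => psia K S a ξ * (sym k t ξ * 𝓕 (g : E d → ℂ) ξ)) x

/-- the derivatives of the pieces -/
noncomputable def dp (K : 𝓢(E d, ℂ)) (S : Finset (Fin d → ℤ)) (k : Fin d ⊕ Bool)
    (g : 𝓢(E d, ℂ)) (t : ℝ) (x : E d) : ℂ :=
  match k with
  | Sum.inl j => pa (dj j K) S (fun _ => 1) (Sum.inr true) g t x +
      pa K S (wt j) (Sum.inr true) g t x
  | Sum.inr true => ∑ j, (pa (dj j K) S (fun _ => 1) (Sum.inl j) g t x +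
      pa K S (wt j) (Sum.inl j) g t x)
  | Sum.inr false => pa K S (fun _ => 1) (Sum.inr true) g t x

/-- the derivatives of the symbols -/
noncomputable def ds (k : Fin d ⊕ Bool) (t : ℝ) (ξ : E d) : ℂ :=
  match k with
  | Sum.inl j => m1 j t ξ
  | Sum.inr true => m3 t ξ
  | Sum.inr false => cs t ξ

theorem ds_sy (k : Fin d ⊕ Bool) : Sy (ds k : ℝ → E d → ℂ) := by
  match k with
  | Sum.inl j => exact sy_m1 j
  | Sum.inr true => exact sy_m3
  | Sum.inr false => exact sy_cs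

theorem sn_le (t : ℝ) (ξ : E d) : ‖(sn t ξ : ℂ)‖ ≤ |t| := by
  unfold sn
  rw [Complex.norm_real, Real.norm_eq_abs, abs_div]
  rcases eq_or_ne ‖ξ‖ 0 with h | h
  · simp [h]
  · have hpos : 0 < ‖ξ‖ := lt_of_le_of_ne (norm_nonneg _) (Ne.symm h)
    rw [div_le_iff₀ (abs_pos.2 (by positivity))]
    calc |Real.sin (2 * Real.pi * t * ‖ξ‖)| ≤ |2 * Real.pi * t * ‖ξ‖| := Real.abs_sin_le_abs
      _ = |t| * |2 * Real.pi * ‖ξ‖| := by
        rw [← abs_mul]
        congr 1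
        ring

theorem hd_sn (t : ℝ) {ξ : E d} (hξ : ξ ≠ 0) : HasDerivAt (fun r => (sn r ξ : ℂ)) (cs t ξ) t := by
  have h0 : ‖ξ‖ ≠ 0 := norm_ne_zero_iff.2 hξ
  have hne : 2 * Real.pi * ‖ξ‖ ≠ 0 := by positivity
  have h := (((hd_arg ‖ξ‖ t).sin).div_const (2 * Real.pi * ‖ξ‖)).ofReal_comp
  rw [mul_div_assoc, div_self hne, mul_one] at h
  exact h

/-- differentiation in time -/
theorem hd_sym (hd : 0 < d) (k : Fin d ⊕ Bool) (h : 𝓢(E d, ℂ)) (t : ℝ) (x : E d) :
    HasDerivAt (fun r => inv (fun ξ => sym k r ξ * 𝓕 (h : E d → ℂ) ξ) x)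
      (inv (fun ξ => ds k t ξ * 𝓕 (h : E d → ℂ) ξ) x) t := by
  match k with
  | Sum.inl j => exact (sy_m0 j).dt (sy_m1 j) (hd_m0 j) h t x
  | Sum.inr true => exact sy_cs.dt sy_m3 hd_cs h t x
  | Sum.inr false =>
    haveI : Nonempty (Fin d) := ⟨⟨0, hd⟩⟩
    haveI : Nontrivial (E d) := inferInstance
    have hm : ∀ r, AEStronglyMeasurable (ig h (sn : ℝ → E d → ℂ) r x) := by
      intro r
      have h1 : Measurable fun ξ => ex x ξ :=
        (cont_ex.comp (Continuous.prodMk_right x)).measurable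
      exact (h1.mul ((meas_sn r).mul (cont_G h).measurable)).aestronglyMeasurable
    have hi : Integrable (ig h (sn : ℝ → E d → ℂ) t x) := by
      refine Integrable.mono' ((int_dom h).const_mul |t|) (hm t)
        (Filter.Eventually.of_forall fun ξ => ?_)
      rw [ig, norm_mul, norm_mul, norm_ex, one_mul, dom]
      have h2 := sn_le t ξ
      have h3 : 0 ≤ 2 * Real.pi * ‖ξ‖ := by positivity
      have h4 : ‖𝓕 (h : E d → ℂ) ξ‖ ≤ (1 + 2 * Real.pi * ‖ξ‖) * ‖𝓕 (h : E d → ℂ) ξ‖ := by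
        have := norm_nonneg (𝓕 (h : E d → ℂ) ξ)
        nlinarith
      exact mul_le_mul h2 h4 (norm_nonneg _) (abs_nonneg _)
    refine (hasDerivAt_integral_of_dominated_loc_of_deriv_le
      (F := fun r ξ => ig h (sn : ℝ → E d → ℂ) r x ξ)
      (F' := fun r ξ => ig h (cs : ℝ → E d → ℂ) r x ξ) (bound := dom h) Filter.univ_mem
      (Filter.Eventually.of_forall hm) hi (sy_cs.ig_meas h t x)
      (Filter.Eventually.of_forall fun ξ r _ => sy_cs.ig_bd h r x ξ) (int_dom h) ?_).2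
    have h0 : ∀ᵐ ξ : E d, ξ ≠ 0 := by
      rw [ae_iff]
      simp
    filter_upwards [h0] with ξ hξ r _
    exact ((hd_sn r hξ).mul_const _).const_mul _

theorem psia_psi (K : 𝓢(E d, ℂ)) (S : Finset (Fin d → ℤ)) (ξ : E d) :
    psi K S ξ = psia K S (fun _ => 1) ξ := by
  unfold psi psia
  refine Finset.sum_congr rfl fun m _ => ?_
  rw [one_mul]

theorem pa_int (K : 𝓢(E d, ℂ)) (S : Finset (Fin d → ℤ)) (a : (Fin d → ℤ) → ℂ)
    (k : Fin d ⊕ Bool) (g : 𝓢(E d, ℂ)) (t : ℝ) (h0 : 0 ≤ t) (h2 : t ≤ 2) :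
    Integrable fun ξ => psia K S a ξ * (sym k t ξ * 𝓕 (g : E d → ℂ) ξ) :=
  psia_int K S a _ (sym_int k t h0 h2 g)

theorem inv_add {F G : E d → ℂ} (hF : Integrable F) (hG : Integrable G) (x : E d) :
    inv (fun ξ => F ξ + G ξ) x = inv F x + inv G x := by
  have h := inv_sum (Finset.univ : Finset Bool) (fun b => if b then F else G)
    (fun b _ => by cases b <;> simpa) x
  simp only [Fintype.sum_bool, if_true, Bool.false_eq_true, if_false] at h
  exact h

/-- the derivative of a piece -/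
theorem ds_dp (K : 𝓢(E d, ℂ)) (S : Finset (Fin d → ℤ)) (k : Fin d ⊕ Bool) (g h : 𝓢(E d, ℂ))
    (hh : ∀ ξ, 𝓕 (h : E d → ℂ) ξ = psia K S (fun _ => 1) ξ * 𝓕 (g : E d → ℂ) ξ) (t : ℝ)
    (h0 : 0 ≤ t) (h2 : t ≤ 2) (x : E d) :
    inv (fun ξ => ds k t ξ * 𝓕 (h : E d → ℂ) ξ) x = dp K S k g t x := by
  match k with
  | Sum.inl j =>
    show _ = pa (dj j K) S (fun _ => 1) (Sum.inr true) g t x +
      pa K S (wt j) (Sum.inr true) g t x
    unfold pa
    rw [← inv_add (pa_int _ _ _ _ _ t h0 h2) (pa_int _ _ _ _ _ t h0 h2)]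
    congr 1
    funext ξ
    rw [← add_mul, ← psia_mul, hh]
    show ((2 * Real.pi * ξ j : ℝ) : ℂ) * Complex.I * cs t ξ * _ = _ * (cs t ξ * _)
    ring
  | Sum.inr false =>
    show _ = pa K S (fun _ => 1) (Sum.inr true) g t x
    unfold pa
    congr 1
    funext ξ
    rw [hh]
    show cs t ξ * _ = _ * (cs t ξ * _)
    ring
  | Sum.inr true =>
    show _ = ∑ j, (pa (dj j K) S (fun _ => 1) (Sum.inl j) g t x +
      pa K S (wt j) (Sum.inl j) g t x)
    unfold pa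
    have e1 : ∀ j : Fin d, inv (fun ξ => psia (dj j K) S (fun _ => 1) ξ *
        (sym (Sum.inl j) t ξ * 𝓕 (g : E d → ℂ) ξ)) x + inv (fun ξ => psia K S (wt j) ξ *
        (sym (Sum.inl j) t ξ * 𝓕 (g : E d → ℂ) ξ)) x =
        inv (fun ξ => m2 j t ξ * 𝓕 (h : E d → ℂ) ξ) x := by
      intro j
      rw [← inv_add (pa_int _ _ _ _ _ t h0 h2) (pa_int _ _ _ _ _ t h0 h2)]
      congr 1
      funext ξ
      rw [← add_mul, ← psia_mul, hh]
      show _ = ((2 * Real.pi * ξ j : ℝ) : ℂ) * Complex.I *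
        (((2 * Real.pi * ξ j : ℝ) : ℂ) * Complex.I * sn t ξ) * _
      show _ * ((((2 * Real.pi * ξ j : ℝ) : ℂ) * Complex.I * sn t ξ) * _) = _
      ring
    simp only [e1]
    rw [← inv_sum]
    · congr 1
      funext ξ
      rw [← Finset.sum_mul, sum_m2]
      rfl
    · intro j _
      have := (sy_m2 j).ig_int h t 0
      refine this.congr (Filter.Eventually.of_forall fun ξ => ?_)
      show ex 0 ξ * (m2 j t ξ * 𝓕 (h : E d → ℂ) ξ) = _
      unfold ex
      simp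

end Pool.Agent.U506.LM
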