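import Pool.Agent.U506.LM.Asm

set_option autoImplicit false

/-!
# The maximal function in time of the wave with random signs: assembly
-/

namespace Pool.Agent.U506.LM

open MeasureTheory Pool.Agent.N303.LS
open scoped ENNReal FourierTransform RealInnerProductSpace SchwartzMap

theorem sbp : S_BP := bp Pool.Agent.N558.LS.t_mul Pool.Agent.N413.LSBES.t_bes

theorem slpk : S_LPK :=
  Pool.Agent.N297.LPK.t_lpk (Pool.Agent.N441.LS.t_lpa Pool.Agent.N558.LS.t_mul)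

/-- the generators: norms -/
theorem gens (d : ℕ) (p s s' : ℝ) (hp : 2 ≤ p) (hs : s' < s) : ∃ D : ℝ, 0 < D ∧
    ∀ u₀ u₁ : 𝓢(E d, ℂ), ∃ hh : Fin d ⊕ Bool → 𝓢(E d, ℂ),
      (∀ k, ∫⁻ x : E d, ‖hh k x‖ₑ ^ p ≤ ENNReal.ofReal D *
        ((∫⁻ x : E d, ‖inv (fun ξ => bes s ξ * 𝓕 (u₀ : E d → ℂ) ξ) x‖ₑ ^ p) +
          ∫⁻ x : E d, ‖inv (fun ξ => bes (s - 1) ξ * 𝓕 (u₁ : E d → ℂ) ξ) x‖ₑ ^ p)) ∧
      (∀ ξ, 𝓕 (u₀ : E d → ℂ) ξ = bes (-s') ξ * 𝓕 (hh (Sum.inr true) : E d → ℂ) ξ) ∧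
      ∀ ξ, 𝓕 (u₁ : E d → ℂ) ξ = bes (-s') ξ * 𝓕 (hh (Sum.inr false) : E d → ℂ) ξ +
        ∑ j, ((2 * Real.pi * ξ j : ℝ) : ℂ) * Complex.I *
          (bes (-s') ξ * 𝓕 (hh (Sum.inl j) : E d → ℂ) ξ) := by
  obtain ⟨B0, hB0, b0⟩ := (sbp d (s - s') p (by linarith)).1 (by linarith)
  obtain ⟨B1, hB1, b1⟩ := (sbp d (1 + (s - s')) p (by linarith)).1 (by linarith)
  choose B2 hB2 b2 using (sbp d (1 + (s - s')) p (by linarith)).2 (by linarith)
  set D : ℝ := B0 + B1 + ∑ j, B2 j with hD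
  have hsum : 0 ≤ ∑ j, B2 j := Finset.sum_nonneg fun j _ => (hB2 j).le
  have hDpos : 0 < D := by positivity
  refine ⟨D, hDpos, ?_⟩
  intro u₀ u₁
  obtain ⟨F₀, F₁, hh, hF0x, hF1x, hh0, hh1, hhj, e0, e1⟩ := data s s' u₀ u₁
  refine ⟨hh, ?_, e0, e1⟩
  simp only [← hF0x, ← hF1x]
  intro k
  have hB2le : ∀ j, B2 j ≤ ∑ j, B2 j := fun j =>
    Finset.single_le_sum (f := B2) (fun i _ => (hB2 i).le) (Finset.mem_univ j)
  match k with
  | Sum.inr true =>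
    simp only [hh0]
    refine (b0 F₀).trans ?_
    gcongr
    · rw [hD]; linarith
    · exact le_self_add
  | Sum.inr false =>
    simp only [hh1]
    refine (b1 F₁).trans ?_
    gcongr
    · rw [hD]; linarith
    · exact le_add_self
  | Sum.inl j =>
    simp only [hhj]
    refine (b2 j (-F₁)).trans ?_
    have e : ∫⁻ x : E d, ‖(-F₁ : 𝓢(E d, ℂ)) x‖ₑ ^ p = ∫⁻ x : E d, ‖F₁ x‖ₑ ^ p := by
      refine lintegral_congr fun x => ?_
      rw [neg_apply, enorm_neg]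
    rw [e]
    gcongr
    · rw [hD]; linarith [hB2le j]
    · exact le_add_self

/-- the localised generators -/
theorem locs (d : ℕ) (p s' : ℝ) (hp : 2 ≤ p) (hs0 : 0 < s') (hs2 : s' < 2) (c₀ : ℕ)
    (χ : ℕ → E d → ℂ) (χtg : ∀ k, (χ k).HasTemperateGrowth) (C5 : ℝ) (hC5 : 0 < C5)
    (h5 : ∀ (k : ℕ) (g h : 𝓢(E d, ℂ)),
      (∀ ξ, 𝓕 (h : E d → ℂ) ξ = χ k ξ * (bes (-s') ξ * 𝓕 (g : E d → ℂ) ξ)) →
      ∫⁻ x : E d, ‖h x‖ₑ ^ p ≤ ENNReal.ofReal (C5 * ((2 : ℝ) ^ (-s' * p)) ^ k) *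
        ∫⁻ x : E d, ‖g x‖ₑ ^ p) : ∃ C7 : ℝ, 0 < C7 ∧ ∀ (hh : 𝓢(E d, ℂ)) (c : ℕ),
      ∃ pg : 𝓢(E d, ℂ), (∀ ξ, 𝓕 (pg : E d → ℂ) ξ = ct χ c₀ c ξ * (bes (-s') ξ *
        𝓕 (hh : E d → ℂ) ξ)) ∧ ∫⁻ x : E d, ‖pg x‖ₑ ^ p ≤
          ENNReal.ofReal (C7 * ((2 : ℝ) ^ (-s' * p)) ^ c) * ∫⁻ x : E d, ‖hh x‖ₑ ^ p := by
  obtain ⟨B3, hB3, b3⟩ := (sbp d s' p (by linarith)).1 hs0
  set r : ℝ := (2 : ℝ) ^ (-s' * p) with hr
  have hr0 : 0 < r := by positivity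
  have hr1 : r ≤ 1 := Real.rpow_le_one_of_one_le_of_nonpos (by norm_num) (by nlinarith)
  refine ⟨B3 * (r ^ c₀)⁻¹ + C5 * r⁻¹, by positivity, ?_⟩
  intro hh c
  by_cases hc : c ≤ c₀
  · obtain ⟨pg, p1, p2⟩ := mult (bes (-s')) (bes_tg _) hh
    refine ⟨pg, fun ξ => ?_, ?_⟩
    · rw [p1]
      unfold ct
      rw [if_pos hc, one_mul]
    · simp only [p2]
      refine (b3 hh).trans ?_
      refine mul_le_mul_left (ENNReal.ofReal_le_ofReal ?_) _
      have h1 : r ^ c₀ ≤ r ^ c := pow_le_pow_of_le_one hr0.le hr1 hc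
      have h2 : 0 < r ^ c₀ := by positivity
      have h3 : 0 ≤ C5 * r⁻¹ * r ^ c := by positivity
      have h4 : B3 ≤ B3 * (r ^ c₀)⁻¹ * r ^ c := by
        calc B3 = B3 * (r ^ c₀)⁻¹ * r ^ c₀ := by field_simp
          _ ≤ _ := by gcongr
      linarith
  · obtain ⟨pg, p1, p2⟩ := mult (fun ξ => χ (c - 1) ξ * bes (-s') ξ)
      ((χtg (c - 1)).mul (bes_tg _)) hh
    refine ⟨pg, fun ξ => ?_, ?_⟩
    · rw [p1]
      unfold ct
      rw [if_neg hc]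
      ring
    · refine (h5 (c - 1) hh pg fun ξ => by rw [p1]; ring).trans ?_
      refine mul_le_mul_left (ENNReal.ofReal_le_ofReal ?_) _
      have h1 : r ^ c = r ^ (c - 1) * r := by
        rw [← pow_succ]
        congr 1
        omega
      have h2 : 0 ≤ B3 * (r ^ c₀)⁻¹ * r ^ c := by positivity
      have h3 : C5 * r⁻¹ * r ^ c = C5 * r ^ (c - 1) := by
        rw [h1]
        field_simp
      linarith

/-- the pointwise bound of one shell -/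
theorem shb (d M : ℕ) (hd : 0 < d) (hM : d < 2 * M) (p q : ℝ) (hp : 2 ≤ p) (hpq : p ≤ q)
    (K : 𝓢(E d, ℂ)) : ∃ C : ℝ, 0 < C ∧
    ∀ (ι : Type) [Fintype ι] [DecidableEq ι] (A : ι → Finset (Fin d → ℤ)) (V c : ℕ),
    (∀ i j, i ≠ j → Disjoint (A i) (A j)) → (∀ i, (A i).card ≤ V) →
    (∀ i, ∀ m ∈ A i, Nat.size (nm m) = c) →
    ∀ (g : Fin d ⊕ Bool → 𝓢(E d, ℂ)) (x : E d),
      ∑ ε : ι → Bool, (∑ k, sp K A k (g k) ε x) ^ p ≤
        ENNReal.ofReal (C * ((2 : ℝ) ^ (p / q)) ^ c * (V : ℝ) ^ (p / 2)) * 2 ^ Fintype.card ι *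
          ∑ k, nrg M (g k) x ^ (p / 2) := by
  have hp0 : 0 < p := by linarith
  have hq0 : 0 < q := by linarith
  obtain ⟨C, hC, h⟩ := maxN d M hd hM q (hp.trans hpq) K
  refine ⟨((d : ℝ) + 2) ^ (p - 1) * C ^ (p / q), by positivity, ?_⟩
  intro ι _ _ A V c hA hV hc g x
  have hcard : Fintype.card (ι → Bool) = 2 ^ Fintype.card ι := by simp
  have hN : (1 : ℝ) ≤ 2 ^ c := one_le_pow₀ (by norm_num)
  have hm : ∀ i, ∀ m ∈ A i, ∀ j, |(m j : ℝ)| ≤ 2 ^ c := by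
    intro i m hmi j
    have h1 := abs_lt_of_size m c (hc i m hmi) j
    have h2 : |(m j : ℝ)| < 2 ^ c := by exact_mod_cast h1
    exact h2.le
  have hk : ∀ k : Fin d ⊕ Bool, ∑ ε : ι → Bool, sp K A k (g k) ε x ^ p ≤
      ENNReal.ofReal ((C * 2 ^ c) ^ (p / q) * (V : ℝ) ^ (p / 2)) * 2 ^ Fintype.card ι *
        nrg M (g k) x ^ (p / 2) := by
    intro k
    have h1 := h ι A V (2 ^ c) hA hV hN hm k (g k) x
    exact maxp _ hcard p q (C * 2 ^ c) V hp0 hpq (by positivity) _ _ h1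
  have hcard2 : (Finset.univ : Finset (Fin d ⊕ Bool)).card = d + 2 := by simp
  have a1 : ∀ ε : ι → Bool, (∑ k : Fin d ⊕ Bool, sp K A k (g k) ε x) ^ p ≤
      ENNReal.ofReal (((d : ℝ) + 2) ^ (p - 1)) *
        ∑ k : Fin d ⊕ Bool, sp K A k (g k) ε x ^ p := by
    intro ε
    have h3 := ENNReal.rpow_sum_le_const_mul_sum_rpow
      (s := (Finset.univ : Finset (Fin d ⊕ Bool)))
      (f := fun k => sp K A k (g k) ε x) (p := p) (by linarith)
    rw [hcard2] at h3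
    refine h3.trans (le_of_eq ?_)
    congr 1
    rw [← ENNReal.ofReal_rpow_of_nonneg (by positivity) (by linarith),
      ENNReal.ofReal_add (by positivity) (by norm_num), ENNReal.ofReal_natCast,
      ENNReal.ofReal_ofNat]
    push_cast
    rfl
  calc ∑ ε : ι → Bool, (∑ k : Fin d ⊕ Bool, sp K A k (g k) ε x) ^ p ≤
      ∑ ε : ι → Bool, ENNReal.ofReal (((d : ℝ) + 2) ^ (p - 1)) *
        ∑ k : Fin d ⊕ Bool, sp K A k (g k) ε x ^ p :=
        Finset.sum_le_sum fun ε _ => a1 ε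
    _ = ENNReal.ofReal (((d : ℝ) + 2) ^ (p - 1)) * ∑ k : Fin d ⊕ Bool,
        ∑ ε : ι → Bool, sp K A k (g k) ε x ^ p := by
        rw [← Finset.mul_sum, Finset.sum_comm]
    _ ≤ ENNReal.ofReal (((d : ℝ) + 2) ^ (p - 1)) * ∑ k : Fin d ⊕ Bool,
        ENNReal.ofReal ((C * 2 ^ c) ^ (p / q) * (V : ℝ) ^ (p / 2)) * 2 ^ Fintype.card ι *
        nrg M (g k) x ^ (p / 2) := by
        gcongr with k _
        exact hk k
    _ = _ := by
        rw [← Finset.mul_sum, ← mul_assoc, ← mul_assoc, ← ENNReal.ofReal_mul (by positivity)]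
        congr 3
        rw [Real.mul_rpow hC.le (by positivity), ← Real.rpow_natCast 2 c,
          ← Real.rpow_natCast ((2 : ℝ) ^ (p / q)) c, ← Real.rpow_mul (by norm_num),
          ← Real.rpow_mul (by norm_num), mul_comm (c : ℝ) (p / q)]
        ring

/-- **the maximal function in time for data with random signs, in Sobolev norms** -/
theorem main (d : ℕ) (hd : 0 < d) (p s : ℝ) (hp : 2 ≤ p) (hs : 0 < s)
    (K : 𝓢(E d, ℂ)) (hc : HasCompactSupport (𝓕 (K : E d → ℂ))) :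
    ∃ C : ℝ, 0 < C ∧ ∀ (ι : Type) [Fintype ι] [DecidableEq ι] (A : ι → Finset (Fin d → ℤ)) (V : ℕ),
    (∀ i j, i ≠ j → Disjoint (A i) (A j)) → (∀ i, (A i).card ≤ V) →
    ∀ (u₀ u₁ : 𝓢(E d, ℂ)),
      (∑ ε : ι → Bool, ∫⁻ x : E d, (⨆ t ∈ Set.Icc (0 : ℝ) 2,
        ‖wave (fun ξ => rnd K A ε ξ * 𝓕 (u₀ : E d → ℂ) ξ)
        (fun ξ => rnd K A ε ξ * 𝓕 (u₁ : E d → ℂ) ξ) t x‖ₑ) ^ p) / 2 ^ Fintype.card ι ≤
        ENNReal.ofReal (C * (V : ℝ) ^ (p / 2)) *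
          ((∫⁻ x : E d, ‖inv (fun ξ => bes s ξ * 𝓕 (u₀ : E d → ℂ) ξ) x‖ₑ ^ p) +
            ∫⁻ x : E d, ‖inv (fun ξ => bes (s - 1) ξ * 𝓕 (u₁ : E d → ℂ) ξ) x‖ₑ ^ p) := by
  have hp0 : 0 < p := by linarith
  -- the radius of the support
  obtain ⟨ρ, hρ⟩ : ∃ ρ : ℕ, ∀ ξ : E d, 𝓕 (K : E d → ℂ) ξ ≠ 0 → ∀ i, |ξ i| ≤ ρ := by
    obtain ⟨R, hR⟩ := hc.isCompact.isBounded.exists_norm_le
    refine ⟨⌈R⌉₊, fun y hy j => ?_⟩
    have h1 := hR y (subset_tsupport _ hy)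
    have h2 : |y j| ≤ ‖y‖ := PiLp.norm_apply_le y j
    exact h2.trans (h1.trans (Nat.le_ceil R))
  set c₀ : ℕ := 4 * ρ with hc₀
  have hρc : 4 * ρ ≤ 2 ^ c₀ := Nat.lt_two_pow_self.le
  -- the exponents
  set s' : ℝ := min s 2 / 2 with hs'
  have m1 : min s 2 ≤ s := min_le_left _ _
  have m2 : min s 2 ≤ 2 := min_le_right _ _
  have m3 : 0 < min s 2 := lt_min hs (by norm_num)
  have a1 : 0 < s' := by rw [hs']; linarith
  have a2 : s' < s := by rw [hs']; linarith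
  have a3 : s' < 2 := by rw [hs']; linarith
  set q : ℝ := max p (2 / s') with hq
  have hpq : p ≤ q := le_max_left _ _
  have hq0 : 0 < q := by linarith
  have hsq : p / q ≤ s' * p / 2 := by
    have h1 : 2 / s' ≤ q := le_max_right _ _
    rw [div_le_iff₀ hq0]
    have h2 : 2 ≤ s' * q := by
      calc (2 : ℝ) = s' * (2 / s') := by field_simp
        _ ≤ s' * q := by gcongr
    nlinarith
  obtain ⟨χ, χtg, χ1, hχ⟩ := slpk d
  obtain ⟨C5, hC5, h5⟩ := hχ s' p a1 a3 (by linarith)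
  obtain ⟨C7, hC7, h7⟩ := locs d p s' hp a1 a3 c₀ χ χtg C5 hC5 h5
  obtain ⟨D, hD, hgen⟩ := gens d p s s' hp a2
  obtain ⟨C1, hC1, h1⟩ := shb d d hd (by omega) p q hp hpq K
  obtain ⟨Y, hY, y⟩ := Pool.Agent.N287.LS.t_you d d (by omega) p hp
  set r : ℝ := (2 : ℝ) ^ (-s' * p) with hr
  have hr0 : 0 < r := by positivity
  set θ : ℝ := (2 : ℝ) ^ (-s' / 2) with hθ
  have hθ0 : 0 < θ := by positivity
  have hθ1 : θ < 1 := Real.rpow_lt_one_of_one_lt_of_neg (by norm_num) (by linarith)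
  have h1θ : 0 < 1 - θ := by linarith
  set H : ℝ := C1 * ((d : ℝ) + 2) * Y * C7 * D with hH
  have hH0 : 0 < H := by positivity
  -- the ratio of the shells
  have hrat : θ ^ (1 - p) * ((2 : ℝ) ^ (p / q) * r) ≤ θ := by
    rw [hθ, hr, ← Real.rpow_mul (by norm_num), ← Real.rpow_add (by norm_num),
      ← Real.rpow_add (by norm_num)]
    refine Real.rpow_le_rpow_of_exponent_le (by norm_num) ?_
    nlinarith
  refine ⟨(1 - θ)⁻¹ ^ (p - 1) * (1 - θ)⁻¹ * H, by positivity, ?_⟩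
  intro ι _ _ A V hA hV u₀ u₁
  obtain ⟨hh, hhb, e0, e1⟩ := hgen u₀ u₁
  set S : ℝ≥0∞ := (∫⁻ x : E d, ‖inv (fun ξ => bes s ξ * 𝓕 (u₀ : E d → ℂ) ξ) x‖ₑ ^ p) +
            ∫⁻ x : E d, ‖inv (fun ξ => bes (s - 1) ξ * 𝓕 (u₁ : E d → ℂ) ξ) x‖ₑ ^ p with hS
  choose pg pg1 pg2 using fun (c : ℕ) (k : Fin d ⊕ Bool) => h7 (hh k) c
  -- the number of shells
  obtain ⟨L, hL⟩ : ∃ L : ℕ, ∀ i, ∀ m ∈ A i, Nat.size (nm m) < L := by
    refine ⟨(∑ i, ∑ m ∈ A i, Nat.size (nm m)) + 1, fun i m hm => ?_⟩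
    have h2 : Nat.size (nm m) ≤ ∑ m ∈ A i, Nat.size (nm m) :=
      Finset.single_le_sum (f := fun m => Nat.size (nm m)) (fun _ _ => Nat.zero_le _) hm
    have h3 : ∑ m ∈ A i, Nat.size (nm m) ≤ ∑ i, ∑ m ∈ A i, Nat.size (nm m) :=
      Finset.single_le_sum (f := fun i => ∑ m ∈ A i, Nat.size (nm m)) (fun _ _ => Nat.zero_le _)
        (Finset.mem_univ i)
    omega
  set B : ℕ → ι → Finset (Fin d → ℤ) := fun c i => sh (A i) c with hB
  have hBd : ∀ c i j, i ≠ j → Disjoint (B c i) (B c j) := by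
    intro c i j hij
    exact (hA i j hij).mono (Finset.filter_subset _ _) (Finset.filter_subset _ _)
  have hBV : ∀ c i, (B c i).card ≤ V := fun c i =>
    (Finset.card_le_card (Finset.filter_subset _ _)).trans (hV i)
  have hBc : ∀ c i, ∀ m ∈ B c i, Nat.size (nm m) = c := fun c i m hm => (mem_sh.1 hm).2
  -- the sum over the types of one shell
  set b : ℕ → (ι → Bool) → E d → ℝ≥0∞ := fun c ε x => ∑ k, sp K (B c) k (pg c k) ε x with hb
  have hw : ∀ (ε : ι → Bool) (x : E d), (⨆ t ∈ Set.Icc (0 : ℝ) 2,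
      ‖wave (fun ξ => rnd K A ε ξ * 𝓕 (u₀ : E d → ℂ) ξ)
        (fun ξ => rnd K A ε ξ * 𝓕 (u₁ : E d → ℂ) ξ) t x‖ₑ) ≤
      ∑ c ∈ Finset.range L, b c ε x := by
    intro ε x
    refine iSup₂_le fun t ht => ?_
    rw [wave_sh K A ε L hL u₀ u₁ t ht.1 ht.2 x]
    refine (enorm_sum_le _ _).trans (Finset.sum_le_sum fun c _ => ?_)
    set f₁ : 𝓢(E d, ℂ) := pg c (Sum.inr false) + ∑ j, LineDeriv.lineDerivOp
      (EuclideanSpace.single j (1 : ℝ)) (pg c (Sum.inl j)) with hf₁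
    have hsl := sum_line (pg c (Sum.inr false)) (fun j => pg c (Sum.inl j))
    have hfg := fourier_gen f₁ (pg c (Sum.inr false)) (fun j => pg c (Sum.inl j)) hsl
    have ef0 : (fun ξ => rnd K (B c) ε ξ * 𝓕 (pg c (Sum.inr true) : E d → ℂ) ξ) =
        fun ξ => rnd K (B c) ε ξ * 𝓕 (u₀ : E d → ℂ) ξ := by
      funext ξ
      rw [pg1, ← e0]
      exact ct_rnd χ χ1 K ρ c₀ hρ hρc A ε c ξ _
    have ef1 : (fun ξ => rnd K (B c) ε ξ * 𝓕 (f₁ : E d → ℂ) ξ) =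
        fun ξ => rnd K (B c) ε ξ * 𝓕 (u₁ : E d → ℂ) ξ := by
      funext ξ
      have e2 : 𝓕 (f₁ : E d → ℂ) ξ = ct χ c₀ c ξ * 𝓕 (u₁ : E d → ℂ) ξ := by
        rw [hfg ξ]
        simp only [pg1]
        rw [e1 ξ, mul_add, Finset.mul_sum]
        congr 1
        refine Finset.sum_congr rfl fun j _ => ?_
        ring
      rw [e2]
      exact ct_rnd χ χ1 K ρ c₀ hρ hρc A ε c ξ _
    have hwe := wave_eq K (B c) ε (pg c (Sum.inr true)) f₁ (pg c (Sum.inr false))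
      (fun j => pg c (Sum.inl j)) hfg t ht.1 ht.2 x
    rw [ef0, ef1] at hwe
    rw [hwe]
    refine (enorm_sum_le _ _).trans ?_
    refine Finset.sum_le_sum fun k _ => ?_
    have hgk : gen (pg c (Sum.inr true)) (pg c (Sum.inr false)) (fun j => pg c (Sum.inl j)) k =
        pg c k := by
      match k with
      | Sum.inl j => rfl
      | Sum.inr true => rfl
      | Sum.inr false => rfl
    rw [hgk]
    exact le_iSup₂ (f := fun (t : ℝ) (_ : t ∈ Set.Icc (0 : ℝ) 2) =>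
      ‖sg K (B c) k (pg c k) ε t x‖ₑ) t ht
  -- the pointwise bound
  set G : ℕ → E d → ℝ≥0∞ := fun c x =>
    ENNReal.ofReal (C1 * ((2 : ℝ) ^ (p / q)) ^ c * (V : ℝ) ^ (p / 2)) * 2 ^ Fintype.card ι *
      ∑ k, nrg d (pg c k) x ^ (p / 2) with hG
  have hbG : ∀ c x, ∑ ε : ι → Bool, b c ε x ^ p ≤ G c x := fun c x =>
    h1 ι (B c) V c (hBd c) (hBV c) (hBc c) (pg c) x
  have hgm : ∀ c k, Measurable fun x => nrg d (pg c k) x ^ (p / 2) := fun c k =>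
    (SQ_nrg d (pg c k).continuous.measurable).pow_const _
  have hcard2 : (Finset.univ : Finset (Fin d ⊕ Bool)).card = d + 2 := by simp
  have hGi : ∀ c, ∫⁻ x, G c x ≤ ENNReal.ofReal (H * ((2 : ℝ) ^ (p / q) * r) ^ c *
      (V : ℝ) ^ (p / 2)) * 2 ^ Fintype.card ι * S := by
    intro c
    simp only [hG]
    rw [lintegral_const_mul' _ _ (by finiteness), lintegral_finset_sum _ fun k _ => hgm c k]
    have z1 : ∀ k, ∫⁻ x : E d, nrg d (pg c k) x ^ (p / 2) ≤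
        ENNReal.ofReal (Y * (C7 * r ^ c) * D) * S := by
      intro k
      refine (y (pg c k)).trans ?_
      refine (mul_le_mul_right (pg2 c k) _).trans ?_
      refine (mul_le_mul_right (mul_le_mul_right (hhb k) _) _).trans (le_of_eq ?_)
      rw [← mul_assoc, ← mul_assoc, ← ENNReal.ofReal_mul (by positivity),
        ← ENNReal.ofReal_mul (by positivity)]
    refine (mul_le_mul_right (Finset.sum_le_sum fun k _ => z1 k) _).trans (le_of_eq ?_)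
    rw [Finset.sum_const, hcard2, nsmul_eq_mul]
    have z2 : (((d + 2 : ℕ) : ℝ≥0∞)) = ENNReal.ofReal ((d : ℝ) + 2) := by
      rw [ENNReal.ofReal_add (by positivity) (by norm_num), ENNReal.ofReal_natCast,
        ENNReal.ofReal_ofNat]
      push_cast
      rfl
    rw [z2]
    have z3 : ENNReal.ofReal (H * ((2 : ℝ) ^ (p / q) * r) ^ c * (V : ℝ) ^ (p / 2)) =
        ENNReal.ofReal (C1 * ((2 : ℝ) ^ (p / q)) ^ c * (V : ℝ) ^ (p / 2)) *
        ENNReal.ofReal ((d : ℝ) + 2) * ENNReal.ofReal (Y * (C7 * r ^ c) * D) := by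
      rw [← ENNReal.ofReal_mul (by positivity), ← ENNReal.ofReal_mul (by positivity)]
      congr 1
      rw [hH, mul_pow]
      ring
    rw [z3]
    ring
  rw [ENNReal.div_le_iff (by positivity) (by finiteness)]
  calc ∑ ε : ι → Bool, ∫⁻ x : E d, (⨆ t ∈ Set.Icc (0 : ℝ) 2,
        ‖wave (fun ξ => rnd K A ε ξ * 𝓕 (u₀ : E d → ℂ) ξ)
        (fun ξ => rnd K A ε ξ * 𝓕 (u₁ : E d → ℂ) ξ) t x‖ₑ) ^ p ≤
      ∑ ε : ι → Bool, ∫⁻ x : E d, (∑ c ∈ Finset.range L, b c ε x) ^ p :=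
        Finset.sum_le_sum fun ε _ => lintegral_mono fun x =>
          ENNReal.rpow_le_rpow (hw ε x) hp0.le
    _ ≤ ∫⁻ x : E d, ∑ ε : ι → Bool, (∑ c ∈ Finset.range L, b c ε x) ^ p := sum_lint_le _ _ _
    _ ≤ ∫⁻ x : E d, ENNReal.ofReal ((1 - θ)⁻¹ ^ (p - 1)) *
          ∑ c ∈ Finset.range L, ENNReal.ofReal ((θ ^ (1 - p)) ^ c) * G c x := by
        refine lintegral_mono fun x => ?_
        calc ∑ ε : ι → Bool, (∑ c ∈ Finset.range L, b c ε x) ^ p ≤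
            ∑ ε : ι → Bool, ENNReal.ofReal ((1 - θ)⁻¹ ^ (p - 1)) *
              ∑ c ∈ Finset.range L, ENNReal.ofReal ((θ ^ (1 - p)) ^ c) * b c ε x ^ p :=
              Finset.sum_le_sum fun ε _ => geoH hp hθ0 hθ1 L fun c => b c ε x
          _ = ENNReal.ofReal ((1 - θ)⁻¹ ^ (p - 1)) * ∑ c ∈ Finset.range L,
              ENNReal.ofReal ((θ ^ (1 - p)) ^ c) * ∑ ε : ι → Bool, b c ε x ^ p := by
              rw [← Finset.mul_sum, Finset.sum_comm]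
              simp only [Finset.mul_sum]
          _ ≤ _ := by
              gcongr with c _
              exact hbG c x
    _ = ENNReal.ofReal ((1 - θ)⁻¹ ^ (p - 1)) *
          ∑ c ∈ Finset.range L, ENNReal.ofReal ((θ ^ (1 - p)) ^ c) * ∫⁻ x : E d, G c x := by
        rw [lintegral_const_mul' _ _ ENNReal.ofReal_ne_top, lintegral_finset_sum]
        · congr 1
          refine Finset.sum_congr rfl fun c _ => ?_
          rw [lintegral_const_mul' _ _ ENNReal.ofReal_ne_top]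
        · intro c _
          refine Measurable.const_mul ?_ _
          refine Measurable.const_mul ?_ _
          exact Finset.measurable_sum _ fun k _ => hgm c k
    _ ≤ ENNReal.ofReal ((1 - θ)⁻¹ ^ (p - 1)) *
          ∑ c ∈ Finset.range L, ENNReal.ofReal (θ ^ c * H * (V : ℝ) ^ (p / 2)) *
            2 ^ Fintype.card ι * S := by
        refine mul_le_mul_right (Finset.sum_le_sum fun c _ => ?_) _
        refine (mul_le_mul_right (hGi c) _).trans ?_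
        rw [← mul_assoc, ← mul_assoc, ← ENNReal.ofReal_mul (by positivity)]
        refine mul_le_mul_left (mul_le_mul_left (ENNReal.ofReal_le_ofReal ?_) _) _
        have z4 : (θ ^ (1 - p)) ^ c * ((2 : ℝ) ^ (p / q) * r) ^ c ≤ θ ^ c := by
          rw [← mul_pow]
          exact pow_le_pow_left₀ (by positivity) hrat c
        calc (θ ^ (1 - p)) ^ c * (H * ((2 : ℝ) ^ (p / q) * r) ^ c * (V : ℝ) ^ (p / 2)) =
            ((θ ^ (1 - p)) ^ c * ((2 : ℝ) ^ (p / q) * r) ^ c) * H * (V : ℝ) ^ (p / 2) := by ring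
          _ ≤ _ := by gcongr
    _ ≤ _ := by
        have z5 : ∑ c ∈ Finset.range L, ENNReal.ofReal (θ ^ c * H * (V : ℝ) ^ (p / 2)) *
            2 ^ Fintype.card ι * S = ENNReal.ofReal ((∑ c ∈ Finset.range L, θ ^ c) * H *
              (V : ℝ) ^ (p / 2)) * 2 ^ Fintype.card ι * S := by
          rw [← Finset.sum_mul, ← Finset.sum_mul, ← ENNReal.ofReal_sum_of_nonneg fun c _ => by
            positivity, ← Finset.sum_mul, ← Finset.sum_mul]
        rw [z5]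
        have z6 : ∑ c ∈ Finset.range L, θ ^ c ≤ (1 - θ)⁻¹ := by
          calc ∑ c ∈ Finset.range L, θ ^ c ≤ ∑' c, θ ^ c :=
                (summable_geometric_of_lt_one hθ0.le hθ1).sum_le_tsum _ fun c _ => by positivity
            _ = (1 - θ)⁻¹ := tsum_geometric_of_lt_one hθ0.le hθ1
        have z7 : 0 ≤ ∑ c ∈ Finset.range L, θ ^ c := Finset.sum_nonneg fun c _ => by positivity
        rw [← mul_assoc, ← mul_assoc, ← ENNReal.ofReal_mul (by positivity), mul_right_comm]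
        refine mul_le_mul_left (mul_le_mul_left (ENNReal.ofReal_le_ofReal ?_) _) _
        calc (1 - θ)⁻¹ ^ (p - 1) * ((∑ c ∈ Finset.range L, θ ^ c) * H * (V : ℝ) ^ (p / 2)) ≤
            (1 - θ)⁻¹ ^ (p - 1) * ((1 - θ)⁻¹ * H * (V : ℝ) ^ (p / 2)) := by gcongr
          _ = _ := by ring

end Pool.Agent.U506.LM
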