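import Pool.Agent.N303.LS.Stm3

set_option autoImplicit false

/-!
# Sobolev's inequality in time
-/

namespace Pool.Agent.U506.LM

open MeasureTheory Pool.Agent.N303.LS
open scoped ENNReal RealInnerProductSpace

/-- the derivative of `‖F‖^q` -/
theorem hd_pow {q : ℝ} (hq : 2 ≤ q) {F F' : ℝ → ℂ} (h : ∀ t, HasDerivAt F (F' t) t) (t : ℝ) :
    HasDerivAt (fun s => (‖F s‖ ^ 2) ^ (q / 2))
      (2 * ⟪F t, F' t⟫ * (q / 2) * (‖F t‖ ^ 2) ^ (q / 2 - 1)) t := by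
  have h1 : HasDerivAt (fun s => ‖F s‖ ^ 2) (2 * ⟪F t, F' t⟫) t := (h t).norm_sq
  have h2 := h1.rpow_const (p := q / 2) (Or.inr (by linarith))
  exact h2

theorem pow_eq {q : ℝ} (x : ℝ) (hx : 0 ≤ x) : (x ^ 2) ^ (q / 2) = x ^ q := by
  rw [← Real.rpow_natCast, ← Real.rpow_mul hx]
  congr 1
  push_cast
  ring

theorem t_sob : S_SOB := by
  intro q hq
  refine ⟨q, by linarith, ?_⟩
  intro F F' hF' hd
  have hq0 : 0 < q := by linarith
  have hF : Continuous F := continuous_iff_continuousAt.2 fun t => (hd t).continuousAt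
  set D : ℝ → ℝ := fun t => 2 * ⟪F t, F' t⟫ * (q / 2) * (‖F t‖ ^ 2) ^ (q / 2 - 1) with hD
  have hDc : Continuous D := by
    have h1 : Continuous fun t => (‖F t‖ ^ 2) ^ (q / 2 - 1) :=
      (hF.norm.pow 2).rpow_const fun t => Or.inr (by linarith)
    have h2 : Continuous fun t => (⟪F t, F' t⟫ : ℝ) := hF.inner hF'
    exact ((continuous_const.mul h2).mul continuous_const).mul h1
  have hDb : ∀ t, ‖D t‖ₑ ≤ ENNReal.ofReal q * (‖F t‖ₑ ^ (q - 1) * ‖F' t‖ₑ) := by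
    intro t
    have h0 : (‖F t‖ ^ 2) ^ (q / 2 - 1) = ‖F t‖ ^ (q - 2) := by
      rw [← Real.rpow_natCast, ← Real.rpow_mul (norm_nonneg _)]
      congr 1
      push_cast
      ring
    have h1 : ‖D t‖ ≤ q * (‖F t‖ ^ (q - 1) * ‖F' t‖) := by
      rw [hD]
      simp only
      rw [h0, norm_mul, norm_mul, norm_mul, Real.norm_eq_abs, Real.norm_eq_abs, Real.norm_eq_abs,
        Real.norm_eq_abs, abs_of_pos (by norm_num : (0 : ℝ) < 2),
        abs_of_pos (by positivity : 0 < q / 2), abs_of_nonneg (by positivity :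
          0 ≤ ‖F t‖ ^ (q - 2))]
      have h2 := abs_real_inner_le_norm (F t) (F' t)
      have h3 : ‖F t‖ ^ (q - 1) = ‖F t‖ ^ (q - 2) * ‖F t‖ := by
        rcases eq_or_lt_of_le (norm_nonneg (F t)) with h | h
        · rw [← h, mul_zero, Real.zero_rpow (by linarith)]
        · rw [← Real.rpow_add_one h.ne']
          congr 1
          ring
      rw [h3]
      have h4 : 0 ≤ ‖F t‖ ^ (q - 2) := by positivity
      calc 2 * |(⟪F t, F' t⟫ : ℝ)| * (q / 2) * ‖F t‖ ^ (q - 2) ≤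
          2 * (‖F t‖ * ‖F' t‖) * (q / 2) * ‖F t‖ ^ (q - 2) := by gcongr
        _ = _ := by ring
    calc ‖D t‖ₑ = ENNReal.ofReal ‖D t‖ := (ofReal_norm _).symm
      _ ≤ ENNReal.ofReal (q * (‖F t‖ ^ (q - 1) * ‖F' t‖)) := ENNReal.ofReal_le_ofReal h1
      _ = _ := by
        rw [ENNReal.ofReal_mul hq0.le, ENNReal.ofReal_mul (by positivity),
          ← ENNReal.ofReal_rpow_of_nonneg (norm_nonneg _) (by linarith), ofReal_norm, ofReal_norm]
  set J : ℝ≥0∞ := ENNReal.ofReal q * ∫⁻ t in Set.Icc (0 : ℝ) 2, ‖F t‖ₑ ^ (q - 1) * ‖F' t‖ₑ with hJ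
  have hDJ : ∫⁻ t in Set.Icc (0 : ℝ) 2, ‖D t‖ₑ ≤ J := by
    rw [hJ, ← lintegral_const_mul' _ _ ENNReal.ofReal_ne_top]
    exact lintegral_mono hDb
  have key : ∀ t ∈ Set.Icc (0 : ℝ) 2, ∀ s ∈ Set.Icc (0 : ℝ) 2,
      ‖F t‖ₑ ^ q ≤ ‖F s‖ₑ ^ q + J := by
    intro t ht s hs
    have h1 : ∫ r in s..t, D r = (‖F t‖ ^ 2) ^ (q / 2) - (‖F s‖ ^ 2) ^ (q / 2) :=
      intervalIntegral.integral_eq_sub_of_hasDerivAt (fun r _ => hd_pow hq hd r)
        (hDc.intervalIntegrable _ _)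
    rw [pow_eq _ (norm_nonneg _), pow_eq _ (norm_nonneg _)] at h1
    have h2 : ‖∫ r in s..t, D r‖ₑ ≤ J := by
      have h3 : ‖∫ r in s..t, D r‖ₑ = ‖∫ r in Set.uIoc s t, D r‖ₑ := by
        rw [← ofReal_norm, ← ofReal_norm, intervalIntegral.norm_intervalIntegral_eq]
      rw [h3]
      refine (enorm_integral_le_lintegral_enorm _).trans (le_trans ?_ hDJ)
      refine lintegral_mono_set ?_
      intro r hr
      have := Set.uIoc_subset_uIcc hr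
      rw [Set.mem_uIcc] at this
      rcases this with h | h
      · exact ⟨hs.1.trans h.1, h.2.trans ht.2⟩
      · exact ⟨ht.1.trans h.1, h.2.trans hs.2⟩
    have h4 : ‖F t‖ ^ q = ‖F s‖ ^ q + ∫ r in s..t, D r := by rw [h1]; ring
    have e : ∀ r, ‖F r‖ₑ ^ q = ENNReal.ofReal (‖F r‖ ^ q) := fun r => by
      rw [← ENNReal.ofReal_rpow_of_nonneg (norm_nonneg _) hq0.le, ofReal_norm]
    rw [e t, e s, h4]
    refine ENNReal.ofReal_add_le.trans (add_le_add le_rfl (le_trans ?_ h2))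
    rw [← ofReal_norm]
    exact ENNReal.ofReal_le_ofReal (le_abs_self _)
  have key2 : ∀ t ∈ Set.Icc (0 : ℝ) 2, ‖F t‖ₑ ^ q ≤ ENNReal.ofReal q *
      ((∫⁻ t in Set.Icc (0 : ℝ) 2, ‖F t‖ₑ ^ q) +
        ∫⁻ t in Set.Icc (0 : ℝ) 2, ‖F t‖ₑ ^ (q - 1) * ‖F' t‖ₑ) := by
    intro t ht
    have h1 : ∫⁻ s in Set.Icc (0 : ℝ) 2, ‖F t‖ₑ ^ q ≤
        ∫⁻ s in Set.Icc (0 : ℝ) 2, (‖F s‖ₑ ^ q + J) :=
      setLIntegral_mono' measurableSet_Icc fun s hs => key t ht s hs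
    have hv : volume (Set.Icc (0 : ℝ) 2) = 2 := by
      rw [Real.volume_Icc]
      norm_num
    rw [lintegral_add_right _ measurable_const, setLIntegral_const, setLIntegral_const, hv] at h1
    have h2 : ‖F t‖ₑ ^ q ≤ (∫⁻ s in Set.Icc (0 : ℝ) 2, ‖F s‖ₑ ^ q) / 2 + J := by
      have h3 : ‖F t‖ₑ ^ q = ‖F t‖ₑ ^ q * 2 / 2 := by
        rw [mul_div_assoc, ENNReal.div_self (by norm_num) (by norm_num), mul_one]
      rw [h3]
      refine (ENNReal.div_le_div_right h1 2).trans (le_of_eq ?_)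
      rw [ENNReal.add_div, mul_div_assoc, ENNReal.div_self (by norm_num) (by norm_num), mul_one]
    refine h2.trans ?_
    rw [mul_add, hJ]
    refine add_le_add ?_ le_rfl
    have h5 : (1 : ℝ≥0∞) ≤ ENNReal.ofReal q := by
      rw [← ENNReal.ofReal_one]
      exact ENNReal.ofReal_le_ofReal (by linarith)
    calc (∫⁻ s in Set.Icc (0 : ℝ) 2, ‖F s‖ₑ ^ q) / 2 ≤ (∫⁻ s in Set.Icc (0 : ℝ) 2, ‖F s‖ₑ ^ q) :=
          ENNReal.half_le_self
      _ ≤ _ := le_mul_of_one_le_left (by positivity) h5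
  set R := ENNReal.ofReal q *
      ((∫⁻ t in Set.Icc (0 : ℝ) 2, ‖F t‖ₑ ^ q) +
        ∫⁻ t in Set.Icc (0 : ℝ) 2, ‖F t‖ₑ ^ (q - 1) * ‖F' t‖ₑ) with hR
  have h6 : (⨆ t ∈ Set.Icc (0 : ℝ) 2, ‖F t‖ₑ) ≤ R ^ q⁻¹ := by
    refine iSup₂_le fun t ht => ?_
    rw [ENNReal.le_rpow_inv_iff hq0]
    exact key2 t ht
  rwa [ENNReal.le_rpow_inv_iff hq0] at h6

end Pool.Agent.U506.LM
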