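import Pool.Agent.U506.LM.Der
import Pool.Agent.U506.LM.Sob
import Pool.Agent.U506.LS.Khi

set_option autoImplicit false

/-!
# The maximal function in time of the signed sum of pieces with bounded frequencies
-/

namespace Pool.Agent.U506.LM

open MeasureTheory Pool.Agent.N303.LS Pool.Agent.N362.LS
open scoped ENNReal FourierTransform RealInnerProductSpace SchwartzMap

variable {d : ℕ}

/-- Hölder's inequality for finite sums -/
theorem hold {κ : Type} [Fintype κ] {q : ℝ} (hq : 2 ≤ q) (a b : κ → ℝ≥0∞) :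
    ∑ e, a e ^ (q - 1) * b e ≤ (∑ e, a e ^ q) ^ ((q - 1) / q) * (∑ e, b e ^ q) ^ (1 / q) := by
  have hq0 : 0 < q := by linarith
  have hq1 : 0 < q - 1 := by linarith
  have hc : (q / (q - 1)).HolderConjugate q := by
    have := Real.HolderConjugate.conjExponent (p := q) (by linarith)
    unfold Real.conjExponent at this
    exact this.symm
  have h := ENNReal.inner_le_Lp_mul_Lq Finset.univ (fun e => a e ^ (q - 1)) b hc
  have e1 : ∀ e, (a e ^ (q - 1)) ^ (q / (q - 1)) = a e ^ q := by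
    intro e
    rw [← ENNReal.rpow_mul]
    congr 1
    field_simp
  simp only [e1] at h
  have e2 : 1 / (q / (q - 1)) = (q - 1) / q := by field_simp
  rw [e2] at h
  exact h

/-- the square of a sum of families -/
theorem sq_fam {ι L : Type} [Fintype ι] [Fintype L] (c : L → ι → ℂ) (B : ℝ≥0∞)
    (h : ∀ l, ∑ i, ‖c l i‖ₑ ^ (2 : ℝ) ≤ B) :
    ∑ i, ‖∑ l, c l i‖ₑ ^ (2 : ℝ) ≤ (Fintype.card L : ℝ≥0∞) ^ 2 * B := by
  have h1 : ∀ i, ‖∑ l, c l i‖ₑ ^ (2 : ℝ) ≤ (Fintype.card L : ℝ≥0∞) * ∑ l, ‖c l i‖ₑ ^ (2 : ℝ) := by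
    intro i
    have h := ENNReal.rpow_sum_le_const_mul_sum_rpow (s := (Finset.univ : Finset L))
      (f := fun l => ‖c l i‖ₑ) (p := 2) (by norm_num)
    have e1 : (2 : ℝ) - 1 = 1 := by norm_num
    rw [e1, ENNReal.rpow_one, Finset.card_univ] at h
    exact (ENNReal.rpow_le_rpow (enorm_sum_le _ _) (by norm_num)).trans h
  refine (Finset.sum_le_sum fun i _ => h1 i).trans ?_
  rw [← Finset.mul_sum, Finset.sum_comm, sq, mul_assoc]
  refine mul_le_mul_right ?_ _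
  refine (Finset.sum_le_sum fun l _ => h l).trans (le_of_eq ?_)
  rw [Finset.sum_const, Finset.card_univ, nsmul_eq_mul]

theorem en : S_EN := Pool.Agent.N655.LS.t_en Pool.Agent.N362.LS.t_ena Pool.Agent.N303.LS.t_enb

/-- the square function of the pieces -/
theorem pab (d M : ℕ) (hM : d < 2 * M) (K : 𝓢(E d, ℂ)) : ∃ C : ℝ, 0 < C ∧
    ∀ (ι : Type) [Fintype ι] (A : ι → Finset (Fin d → ℤ)) (V : ℕ) (a : (Fin d → ℤ) → ℂ) (r : ℝ),
    (∀ i j, i ≠ j → Disjoint (A i) (A j)) → (∀ i, (A i).card ≤ V) → 0 ≤ r →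
    (∀ i, ∀ m ∈ A i, ‖a m‖ ≤ r) →
    ∀ (k : Fin d ⊕ Bool) (g : 𝓢(E d, ℂ)) (t : ℝ), 0 ≤ t → t ≤ 2 → ∀ x : E d,
      ∑ i, ‖pa K (A i) a k g t x‖ₑ ^ (2 : ℝ) ≤ ENNReal.ofReal (C * V * r ^ 2) * nrg M g x := by
  obtain ⟨C1, hC1, h1⟩ := carg d M K
  obtain ⟨C2, hC2, h2⟩ := en d M hM
  refine ⟨C1 * C2, by positivity, ?_⟩
  intro ι _ A V a r hA hV hr ha k g t h0 h2t x
  have b1 := h1 ι A V a r hA hV hr ha (fun ξ => sym k t ξ * 𝓕 (g : E d → ℂ) ξ)
    (sym_int k t h0 h2t g) x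
  refine b1.trans ?_
  refine (mul_le_mul_right (h2 g x t h0 h2t k) _).trans (le_of_eq ?_)
  rw [← mul_assoc, ← ENNReal.ofReal_mul (by positivity)]
  congr 2
  ring

/-- the square function of the derivatives of the pieces -/
theorem dpb (d M : ℕ) (hM : d < 2 * M) (K : 𝓢(E d, ℂ)) : ∃ C : ℝ, 0 < C ∧
    ∀ (ι : Type) [Fintype ι] (A : ι → Finset (Fin d → ℤ)) (V : ℕ) (N : ℝ),
    (∀ i j, i ≠ j → Disjoint (A i) (A j)) → (∀ i, (A i).card ≤ V) → 1 ≤ N →
    (∀ i, ∀ m ∈ A i, ∀ j, |(m j : ℝ)| ≤ N) →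
    ∀ (k : Fin d ⊕ Bool) (g : 𝓢(E d, ℂ)) (t : ℝ), 0 ≤ t → t ≤ 2 → ∀ x : E d,
      ∑ i, ‖dp K (A i) k g t x‖ₑ ^ (2 : ℝ) ≤ ENNReal.ofReal (C * V * N ^ 2) * nrg M g x := by
  obtain ⟨C0, hC0, h0⟩ := pab d M hM K
  choose C1 hC1 h1 using fun j : Fin d => pab d M hM (dj j K)
  obtain ⟨D, hD⟩ : ∃ D : ℝ, D = (C0 + ∑ j, C1 j) * (2 * Real.pi) ^ 2 := ⟨_, rfl⟩
  have hsum : 0 ≤ ∑ j, C1 j := Finset.sum_nonneg fun j _ => (hC1 j).le
  have hpi : 1 ≤ (2 * Real.pi) ^ 2 := by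
    have := Real.pi_gt_three
    nlinarith
  have hD0 : 0 < D := by
    rw [hD]
    positivity
  have hDC0 : C0 * (2 * Real.pi) ^ 2 ≤ D := by
    rw [hD]
    have : 0 ≤ (∑ j, C1 j) * (2 * Real.pi) ^ 2 := by positivity
    nlinarith
  have hDC0' : C0 ≤ D := le_trans (by nlinarith) hDC0
  have hDC1 : ∀ j, C1 j ≤ D := by
    intro j
    have h3 : C1 j ≤ ∑ j, C1 j :=
      Finset.single_le_sum (f := C1) (fun i _ => (hC1 i).le) (Finset.mem_univ j)
    rw [hD]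
    calc C1 j ≤ C0 + ∑ j, C1 j := by linarith
      _ ≤ _ := le_mul_of_one_le_right (by positivity) hpi
  refine ⟨((2 * d + 2 : ℕ) : ℝ) ^ 2 * D, by positivity, ?_⟩
  intro ι _ A V N hA hV hN hm k g t ht0 ht2 x
  have hV0 : (0 : ℝ) ≤ V := Nat.cast_nonneg V
  have hN0 : 0 ≤ N := by linarith
  set B : ℝ≥0∞ := ENNReal.ofReal (D * V * N ^ 2) * nrg M g x with hB
  have hone : ∀ i, ∀ m ∈ A i, ‖(fun _ : Fin d → ℤ => (1 : ℂ)) m‖ ≤ 1 := by
    intro i m _
    simp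
  have hN2 : 1 ≤ N ^ 2 := by nlinarith
  have hwt : ∀ j : Fin d, ∀ i, ∀ m ∈ A i, ‖wt j m‖ ≤ 2 * Real.pi * N := by
    intro j i m hmi
    unfold wt
    rw [norm_mul, Complex.norm_I, mul_one, Complex.norm_real, Real.norm_eq_abs, abs_mul,
      abs_of_pos (by positivity : (0 : ℝ) < 2 * Real.pi)]
    exact mul_le_mul_of_nonneg_left (hm i m hmi j) (by positivity)
  -- the three kinds of pieces
  have p0 : ∀ k', ∑ i, ‖pa K (A i) (fun _ => 1) k' g t x‖ₑ ^ (2 : ℝ) ≤ B := by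
    intro k'
    refine (h0 ι A V (fun _ => 1) 1 hA hV zero_le_one hone k' g t ht0 ht2 x).trans ?_
    rw [hB]
    refine mul_le_mul_left (ENNReal.ofReal_le_ofReal ?_) _
    rw [one_pow]
    gcongr
  have p1 : ∀ j k', ∑ i, ‖pa (dj j K) (A i) (fun _ => 1) k' g t x‖ₑ ^ (2 : ℝ) ≤ B := by
    intro j k'
    refine (h1 j ι A V (fun _ => 1) 1 hA hV zero_le_one hone k' g t ht0 ht2 x).trans ?_
    rw [hB]
    refine mul_le_mul_left (ENNReal.ofReal_le_ofReal ?_) _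
    rw [one_pow]
    gcongr
    exact hDC1 j
  have p2 : ∀ j k', ∑ i, ‖pa K (A i) (wt j) k' g t x‖ₑ ^ (2 : ℝ) ≤ B := by
    intro j k'
    refine (h0 ι A V (wt j) (2 * Real.pi * N) hA hV (by positivity) (hwt j) k' g t ht0 ht2
      x).trans ?_
    rw [hB]
    refine mul_le_mul_left (ENNReal.ofReal_le_ofReal ?_) _
    calc C0 * V * (2 * Real.pi * N) ^ 2 = (C0 * (2 * Real.pi) ^ 2) * V * N ^ 2 := by ring
      _ ≤ _ := by gcongr
  have hfin : ∀ n : ℕ, n ≤ 2 * d + 2 → ((n : ℝ≥0∞)) ^ 2 * B ≤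
      ENNReal.ofReal (((2 * d + 2 : ℕ) : ℝ) ^ 2 * D * V * N ^ 2) * nrg M g x := by
    intro n hn
    have e0 : ((2 * d + 2 : ℕ) : ℝ) ^ 2 * D * V * N ^ 2 =
        ((2 * d + 2 : ℕ) : ℝ) ^ 2 * (D * V * N ^ 2) := by ring
    have e : ENNReal.ofReal (((2 * d + 2 : ℕ) : ℝ) ^ 2 * D * V * N ^ 2) * nrg M g x =
        (((2 * d + 2 : ℕ) : ℝ≥0∞)) ^ 2 * B := by
      rw [hB, ← mul_assoc, e0, ENNReal.ofReal_mul (by positivity),
        ENNReal.ofReal_pow (by positivity), ENNReal.ofReal_natCast]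
    rw [e]
    have hn' : (n : ℝ≥0∞) ≤ ((2 * d + 2 : ℕ) : ℝ≥0∞) := by exact_mod_cast hn
    gcongr
  match k with
  | Sum.inl j =>
    have h5 := sq_fam (fun (b : Bool) i => if b then pa (dj j K) (A i) (fun _ => 1)
      (Sum.inr true) g t x else pa K (A i) (wt j) (Sum.inr true) g t x) B (by
        intro b
        cases b
        · simpa using p2 j (Sum.inr true)
        · simpa using p1 j (Sum.inr true))
    refine le_trans (le_of_eq ?_) (h5.trans (hfin _ (by simp)))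
    refine Finset.sum_congr rfl fun i _ => ?_
    simp only [Fintype.sum_bool, if_true, Bool.false_eq_true, if_false]
    rfl
  | Sum.inr false =>
    have h5 := sq_fam (fun (_ : Unit) i => pa K (A i) (fun _ => 1) (Sum.inr true) g t x) B
      (fun _ => p0 (Sum.inr true))
    refine le_trans (le_of_eq ?_) (h5.trans (hfin _ (by simp)))
    refine Finset.sum_congr rfl fun i _ => ?_
    simp only [Finset.univ_unique, Finset.sum_const, Finset.card_singleton, one_smul]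
    rfl
  | Sum.inr true =>
    have h5 := sq_fam (fun (b : Bool × Fin d) i => if b.1 then pa (dj b.2 K) (A i) (fun _ => 1)
      (Sum.inl b.2) g t x else pa K (A i) (wt b.2) (Sum.inl b.2) g t x) B (by
        rintro ⟨b, j⟩
        cases b
        · simpa using p2 j (Sum.inl j)
        · simpa using p1 j (Sum.inl j))
    refine le_trans (le_of_eq ?_) (h5.trans (hfin _ (by simp)))
    refine Finset.sum_congr rfl fun i _ => ?_
    rw [Fintype.sum_prod_type]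
    simp only [Fintype.sum_bool, if_true, Bool.false_eq_true, if_false]
    rw [← Finset.sum_add_distrib]
    rfl

/-- the maximal function of the signed sum, frequencies at most `N` -/
theorem maxN (d M : ℕ) (hd : 0 < d) (hM : d < 2 * M) (q : ℝ) (hq : 2 ≤ q) (K : 𝓢(E d, ℂ)) :
    ∃ C : ℝ, 0 < C ∧
    ∀ (ι : Type) [Fintype ι] [DecidableEq ι] (A : ι → Finset (Fin d → ℤ)) (V : ℕ) (N : ℝ),
    (∀ i j, i ≠ j → Disjoint (A i) (A j)) → (∀ i, (A i).card ≤ V) → 1 ≤ N →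
    (∀ i, ∀ m ∈ A i, ∀ j, |(m j : ℝ)| ≤ N) →
    ∀ (k : Fin d ⊕ Bool) (g : 𝓢(E d, ℂ)) (x : E d),
      ∑ ε : ι → Bool, sp K A k g ε x ^ q ≤
        ENNReal.ofReal (C * N * 2 ^ Fintype.card ι * (V : ℝ) ^ (q / 2)) * nrg M g x ^ (q / 2) := by
  have hq0 : 0 < q := by linarith
  obtain ⟨Cs, hCs, hs⟩ := t_sob q hq
  obtain ⟨Ck, hCk, hk⟩ := khi_enn Pool.Agent.U506.LS.t_khi q hq
  obtain ⟨C1, hC1, h1⟩ := pab d M hM K
  obtain ⟨C2, hC2, h2⟩ := dpb d M hM K
  refine ⟨4 * Cs * Ck * (C1 + C2) ^ (q / 2), by positivity, ?_⟩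
  intro ι _ _ A V N hA hV hN hm k g x
  have hN0 : 0 ≤ N := by linarith
  have hV0 : (0 : ℝ) ≤ V := Nat.cast_nonneg V
  -- the Schwartz functions of the pieces
  choose h hh _ using fun i => mult (psia K (A i) fun _ => 1) (psia_tg K (A i) fun _ => 1) g
  set D : (ι → Bool) → ℝ → ℂ := fun ε t => ∑ i, (if ε i then
    inv (fun ξ => ds k t ξ * 𝓕 (h i : E d → ℂ) ξ) x else
    - inv (fun ξ => ds k t ξ * 𝓕 (h i : E d → ℂ) ξ) x) with hD
  have hpc : ∀ i t, pc K (A i) k g t x = inv (fun ξ => sym k t ξ * 𝓕 (h i : E d → ℂ) ξ) x := by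
    intro i t
    unfold pc
    congr 1
    funext ξ
    rw [hh, psia_psi]
    ring
  have hpa : ∀ i t, pc K (A i) k g t x = pa K (A i) (fun _ => 1) k g t x := by
    intro i t
    unfold pc pa
    congr 1
    funext ξ
    rw [psia_psi]
  have hder : ∀ (ε : ι → Bool) (t : ℝ), HasDerivAt (fun r => sg K A k g ε r x) (D ε t) t := by
    intro ε t
    unfold sg
    simp only [hpc, hD]
    refine HasDerivAt.fun_sum fun i _ => ?_
    by_cases hε : ε i = true
    · simp only [hε, if_true]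
      exact hd_sym hd k (h i) t x
    · simp only [hε, if_false, Bool.false_eq_true]
      exact (hd_sym hd k (h i) t x).fun_neg
  have hDc : ∀ ε : ι → Bool, Continuous (D ε) := by
    intro ε
    simp only [hD]
    refine continuous_finset_sum _ fun i _ => ?_
    have h5 : Continuous fun t : ℝ => inv (fun ξ => ds k t ξ * 𝓕 (h i : E d → ℂ) ξ) x :=
      ((ds_sy k).cont_inv (h i)).comp (Continuous.prodMk_left x)
    by_cases hε : ε i = true
    · simp only [hε, if_true]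
      exact h5
    · simp only [hε, if_false, Bool.false_eq_true]
      exact h5.neg
  have hds : ∀ (ε : ι → Bool) (t : ℝ), 0 ≤ t → t ≤ 2 →
      D ε t = ∑ i, (if ε i then dp K (A i) k g t x else - dp K (A i) k g t x) := by
    intro ε t h0 h2t
    simp only [hD]
    refine Finset.sum_congr rfl fun i _ => ?_
    rw [ds_dp K (A i) k g (h i) (hh i) t h0 h2t x]
  set X := nrg M g x with hX
  obtain ⟨R, hR⟩ : ∃ R : ℝ≥0∞, R = ENNReal.ofReal (Ck * 2 ^ Fintype.card ι) *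
    (ENNReal.ofReal ((C1 + C2) * V) * X) ^ (q / 2) := ⟨_, rfl⟩
  have k1 : ∀ t ∈ Set.Icc (0 : ℝ) 2, ∑ ε : ι → Bool, ‖sg K A k g ε t x‖ₑ ^ q ≤ R := by
    intro t ht
    have h5 := hk ι fun i => pc K (A i) k g t x
    refine h5.trans ?_
    rw [hR]
    gcongr
    simp only [hpa]
    refine (h1 ι A V (fun _ => 1) 1 hA hV zero_le_one (by simp) k g t ht.1 ht.2 x).trans ?_
    refine mul_le_mul_left (ENNReal.ofReal_le_ofReal ?_) _
    have := mul_nonneg hC2.le hV0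
    nlinarith
  have k2 : ∀ t ∈ Set.Icc (0 : ℝ) 2, ∑ ε : ι → Bool, ‖D ε t‖ₑ ^ q ≤ ENNReal.ofReal N ^ q * R := by
    intro t ht
    have h5 := hk ι fun i => dp K (A i) k g t x
    have e1 : ∑ ε : ι → Bool, ‖D ε t‖ₑ ^ q =
        ∑ ε : ι → Bool, ‖∑ i, (if ε i then dp K (A i) k g t x else - dp K (A i) k g t x)‖ₑ ^ q :=
      Finset.sum_congr rfl fun ε _ => by rw [hds ε t ht.1 ht.2]
    rw [e1]
    refine h5.trans ?_
    have h6 := h2 ι A V N hA hV hN hm k g t ht.1 ht.2 x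
    have e2 : ENNReal.ofReal N ^ q * R = ENNReal.ofReal (Ck * 2 ^ Fintype.card ι) *
        (ENNReal.ofReal (N ^ 2) * (ENNReal.ofReal ((C1 + C2) * V) * X)) ^ (q / 2) := by
      rw [ENNReal.mul_rpow_of_nonneg (ENNReal.ofReal (N ^ 2)) _ (by positivity), hR,
        ENNReal.ofReal_rpow_of_nonneg hN0 hq0.le,
        ENNReal.ofReal_rpow_of_nonneg (by positivity) (by positivity), pow_eq N hN0]
      ring
    rw [e2]
    refine mul_le_mul_right (ENNReal.rpow_le_rpow ?_ (by positivity)) _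
    refine h6.trans ?_
    rw [← mul_assoc, ← ENNReal.ofReal_mul (by positivity)]
    refine mul_le_mul_left (ENNReal.ofReal_le_ofReal ?_) _
    have := mul_nonneg (mul_nonneg hC1.le hV0) (sq_nonneg N)
    nlinarith
  -- the mixed term
  have k3 : ∀ t ∈ Set.Icc (0 : ℝ) 2, ∑ ε : ι → Bool, ‖sg K A k g ε t x‖ₑ ^ (q - 1) * ‖D ε t‖ₑ ≤
      ENNReal.ofReal N * R := by
    intro t ht
    refine (hold hq _ _).trans ?_
    have h5 := ENNReal.rpow_le_rpow (k1 t ht) (show 0 ≤ (q - 1) / q by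
      apply div_nonneg <;> linarith)
    have h6 := ENNReal.rpow_le_rpow (k2 t ht) (show 0 ≤ 1 / q by positivity)
    refine (mul_le_mul' h5 h6).trans (le_of_eq ?_)
    rw [ENNReal.mul_rpow_of_nonneg (ENNReal.ofReal N ^ q) R (by positivity), ← ENNReal.rpow_mul,
      mul_one_div_cancel hq0.ne', ENNReal.rpow_one]
    have e3 : R ^ ((q - 1) / q) * R ^ (1 / q) = R := by
      rw [← ENNReal.rpow_add_of_nonneg _ _ (by apply div_nonneg <;> linarith) (by positivity)]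
      have : (q - 1) / q + 1 / q = 1 := by field_simp; ring
      rw [this, ENNReal.rpow_one]
    calc R ^ ((q - 1) / q) * (ENNReal.ofReal N * R ^ (1 / q)) =
        ENNReal.ofReal N * (R ^ ((q - 1) / q) * R ^ (1 / q)) := by ring
      _ = _ := by rw [e3]
  have hv : volume (Set.Icc (0 : ℝ) 2) = 2 := by
    rw [Real.volume_Icc]
    norm_num
  have h7 : ∀ ε : ι → Bool, sp K A k g ε x ^ q ≤ ENNReal.ofReal Cs *
      ((∫⁻ t in Set.Icc (0 : ℝ) 2, ‖sg K A k g ε t x‖ₑ ^ q) +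
        ∫⁻ t in Set.Icc (0 : ℝ) 2, ‖sg K A k g ε t x‖ₑ ^ (q - 1) * ‖D ε t‖ₑ) := fun ε =>
    hs (fun t => sg K A k g ε t x) (D ε) (hDc ε) (hder ε)
  have hN1 : (1 : ℝ≥0∞) ≤ ENNReal.ofReal N := by
    rw [← ENNReal.ofReal_one]
    exact ENNReal.ofReal_le_ofReal hN
  calc ∑ ε : ι → Bool, sp K A k g ε x ^ q ≤ ∑ ε : ι → Bool, ENNReal.ofReal Cs *
      ((∫⁻ t in Set.Icc (0 : ℝ) 2, ‖sg K A k g ε t x‖ₑ ^ q) +
        ∫⁻ t in Set.Icc (0 : ℝ) 2, ‖sg K A k g ε t x‖ₑ ^ (q - 1) * ‖D ε t‖ₑ) :=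
        Finset.sum_le_sum fun ε _ => h7 ε
    _ = ENNReal.ofReal Cs * ((∑ ε : ι → Bool, ∫⁻ t in Set.Icc (0 : ℝ) 2, ‖sg K A k g ε t x‖ₑ ^ q) +
        ∑ ε : ι → Bool, ∫⁻ t in Set.Icc (0 : ℝ) 2, ‖sg K A k g ε t x‖ₑ ^ (q - 1) * ‖D ε t‖ₑ) := by
        rw [← Finset.mul_sum, Finset.sum_add_distrib]
    _ ≤ ENNReal.ofReal Cs * ((∫⁻ _t in Set.Icc (0 : ℝ) 2, R) +
        ∫⁻ _t in Set.Icc (0 : ℝ) 2, ENNReal.ofReal N * R) := by
        refine mul_le_mul_right (add_le_add ?_ ?_) _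
        · exact (sum_lint_le _ _ _).trans (setLIntegral_mono' measurableSet_Icc k1)
        · exact (sum_lint_le _ _ _).trans (setLIntegral_mono' measurableSet_Icc k3)
    _ = ENNReal.ofReal Cs * (R * 2 + ENNReal.ofReal N * R * 2) := by
        rw [setLIntegral_const, setLIntegral_const, hv]
    _ ≤ ENNReal.ofReal Cs * (ENNReal.ofReal N * R * 2 + ENNReal.ofReal N * R * 2) := by
        refine mul_le_mul_right (add_le_add ?_ le_rfl) _
        refine mul_le_mul_left ?_ _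
        exact le_mul_of_one_le_left (by positivity) hN1
    _ = _ := by
        rw [hR, ENNReal.mul_rpow_of_nonneg _ _ (by positivity),
          ENNReal.ofReal_rpow_of_nonneg (by positivity) (by positivity),
          Real.mul_rpow (by positivity) hV0]
        have e4 : ENNReal.ofReal (4 * Cs * Ck * (C1 + C2) ^ (q / 2) * N * 2 ^ Fintype.card ι *
            (V : ℝ) ^ (q / 2)) = 4 * ENNReal.ofReal Cs * ENNReal.ofReal N *
              ENNReal.ofReal (Ck * 2 ^ Fintype.card ι) *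
              ENNReal.ofReal ((C1 + C2) ^ (q / 2) * (V : ℝ) ^ (q / 2)) := by
          rw [show (4 : ℝ≥0∞) = ENNReal.ofReal 4 by norm_num, ← ENNReal.ofReal_mul (by positivity),
            ← ENNReal.ofReal_mul (by positivity), ← ENNReal.ofReal_mul (by positivity),
            ← ENNReal.ofReal_mul (by positivity)]
          congr 1
          ring
        rw [e4]
        ring

end Pool.Agent.U506.LM
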